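import Pool.Agent.H47.QG.IterA
import Pool.Agent.H47.QG.IterF

/-!
# Index of iterates: almost additive with constant `n`
-/

set_option autoImplicit false

open Module QuadraticForm Filter Topology

namespace Pool.Agent.H10.TU

open Pool.Agent.H47.QG

variable {n : ℕ} (S : ℕ → Pt n → ℝ) (f : ℕ → Pt n → Pt n)

theorem left_eq {K1 K2 : ℕ} [NeZero K1] [NeZero K2] [NeZero (K1 + K2)] (v1 : Fin K1 → Pt n)
    (v2 : Fin K2 → Pt n) (h : (v1 0).1 = (v2 0).1) (i : Fin K1) :
    (Fin.append v1 v2 (Fin.castAdd K2 i + 1)).1 = (v1 (i + 1)).1 := by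
  rcases IterA_succ K1 i with ⟨h3, h4⟩ | ⟨h3, h4⟩
  · have h5 : (Fin.castAdd K2 i + 1 : Fin (K1 + K2)) = Fin.castAdd K2 (i + 1) := by
      apply Fin.ext
      rcases IterA_succ (K1 + K2) (Fin.castAdd K2 i) with ⟨-, h6⟩ | ⟨h6, -⟩
      · rw [h6, Fin.val_castAdd, Fin.val_castAdd, h4]
      · rw [Fin.val_castAdd] at h6
        omega
    rw [h5, Fin.append_left]
  · have hK2 : 0 < K2 := Nat.pos_of_neZero K2
    have h5 : (Fin.castAdd K2 i + 1 : Fin (K1 + K2)) = Fin.natAdd K1 0 := by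
      apply Fin.ext
      rcases IterA_succ (K1 + K2) (Fin.castAdd K2 i) with ⟨-, h6⟩ | ⟨h6, -⟩
      · rw [h6, Fin.val_castAdd, Fin.val_natAdd, h3]
        rfl
      · rw [Fin.val_castAdd] at h6
        omega
    have h6 : (i + 1 : Fin K1) = 0 := Fin.ext h4
    rw [h5, Fin.append_right, h6, h]

theorem right_eq {K1 K2 : ℕ} [NeZero K1] [NeZero K2] [NeZero (K1 + K2)] (v1 : Fin K1 → Pt n)
    (v2 : Fin K2 → Pt n) (h : (v1 0).1 = (v2 0).1) (i : Fin K2) :
    (Fin.append v1 v2 (Fin.natAdd K1 i + 1)).1 = (v2 (i + 1)).1 := by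
  rcases IterA_succ K2 i with ⟨h3, h4⟩ | ⟨h3, h4⟩
  · have h5 : (Fin.natAdd K1 i + 1 : Fin (K1 + K2)) = Fin.natAdd K1 (i + 1) := by
      apply Fin.ext
      rcases IterA_succ (K1 + K2) (Fin.natAdd K1 i) with ⟨-, h6⟩ | ⟨h6, -⟩
      · rw [h6, Fin.val_natAdd, Fin.val_natAdd, h4]
        rfl
      · rw [Fin.val_natAdd] at h6
        omega
    rw [h5, Fin.append_right]
  · have hK1 : 0 < K1 := Nat.pos_of_neZero K1
    have h5 : (Fin.natAdd K1 i + 1 : Fin (K1 + K2)) = Fin.castAdd K2 0 := by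
      apply Fin.ext
      rcases IterA_succ (K1 + K2) (Fin.natAdd K1 i) with ⟨h6, -⟩ | ⟨-, h6⟩
      · rw [Fin.val_natAdd] at h6
        omega
      · rw [h6, Fin.val_castAdd]
        rfl
    have h6 : (i + 1 : Fin K2) = 0 := Fin.ext h4
    rw [h5, Fin.append_left, h6, h]

theorem hess_app (hS : ∀ j, ContDiff ℝ 2 (S j)) {K1 K2 : ℕ} [NeZero K1] [NeZero K2]
    [NeZero (K1 + K2)] (hS1 : ∀ j, S (K1 + j) = S j) {w : Pt n}
    (hf1 : ∀ j, flw f (K1 + j) w = flw f j w) (hf2 : flw f K2 w = w)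
    (v1 : Fin K1 → Pt n) (v2 : Fin K2 → Pt n) (h : (v1 0).1 = (v2 0).1) :
    hess (action S (K1 + K2)) (oseq f (K1 + K2) w) (Fin.append v1 v2) =
      hess (action S K1) (oseq f K1 w) v1 + hess (action S K2) (oseq f K2 w) v2 := by
  have hw1 : flw f K1 w = w := hf1 0
  have hw2 : flw f (K1 + K2) w = w := by rw [hf1, hf2]
  rw [hess_action S hS, hess_action S hS, hess_action S hS, Fin.sum_univ_add]
  congr 1
  · refine Finset.sum_congr rfl fun i _ => ?_
    rw [left_eq v1 v2 h, Fin.append_left, IterA_oseq f hw2, IterA_oseq f hw1]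
    rfl
  · refine Finset.sum_congr rfl fun i _ => ?_
    rw [right_eq v1 v2 h, Fin.append_right, IterA_oseq f hw2, IterA_oseq f hf2,
      Fin.val_natAdd, hS1]
    simp only [oseq, Fin.val_natAdd, add_assoc, hf1]

theorem core (hS : ∀ j, ContDiff ℝ 2 (S j)) {K1 K2 : ℕ} [NeZero K1] [NeZero K2]
    [NeZero (K1 + K2)] (hS1 : ∀ j, S (K1 + j) = S j) {w : Pt n}
    (hf1 : ∀ j, flw f (K1 + j) w = flw f j w) (hf2 : flw f K2 w = w) :
    |(sigNeg (hess (action S (K1 + K2)) (oseq f (K1 + K2) w)) : ℝ) -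
      sigNeg (hess (action S K1) (oseq f K1 w)) - sigNeg (hess (action S K2) (oseq f K2 w))| ≤
      n := by
  set L : ((Fin K1 → Pt n) × (Fin K2 → Pt n)) →ₗ[ℝ] (Fin n → ℝ) :=
    { toFun := fun v => (v.1 0).1 - (v.2 0).1
      map_add' := fun u v => by
        show ((u.1 0).1 + (v.1 0).1) - ((u.2 0).1 + (v.2 0).1) = _
        abel
      map_smul' := fun c v => by
        show c • (v.1 0).1 - c • (v.2 0).1 = c • ((v.1 0).1 - (v.2 0).1)
        rw [smul_sub] } with hL
  have hdim : finrank ℝ ((Fin K1 → Pt n) × (Fin K2 → Pt n)) ≤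
      finrank ℝ (LinearMap.ker L) + n := by
    have h3 := LinearMap.finrank_range_add_finrank_ker L
    have h4 : finrank ℝ (LinearMap.range L) ≤ finrank ℝ (Fin n → ℝ) :=
      Submodule.finrank_le _
    rw [Module.finrank_fin_fun] at h4
    omega
  have hdimE : finrank ℝ (Fin (K1 + K2) → Pt n) =
      finrank ℝ ((Fin K1 → Pt n) × (Fin K2 → Pt n)) := (IterA_app (n := n) K1 K2).finrank_eq.symm
  set i1 : LinearMap.ker L →ₗ[ℝ] ((Fin K1 → Pt n) × (Fin K2 → Pt n)) :=
    (LinearMap.ker L).subtype with hi1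
  have hi1' : Function.Injective i1 := Subtype.val_injective
  set i2 : LinearMap.ker L →ₗ[ℝ] (Fin (K1 + K2) → Pt n) :=
    (IterA_app (n := n) K1 K2).toLinearMap ∘ₗ i1 with hi2
  have hi2' : Function.Injective i2 := (IterA_app (n := n) K1 K2).injective.comp hi1'
  have heq : (hess (action S (K1 + K2)) (oseq f (K1 + K2) w)).comp i2 =
      (QuadraticMap.prod (hess (action S K1) (oseq f K1 w))
        (hess (action S K2) (oseq f K2 w))).comp i1 := by
    ext v
    have hv : (v.1.1 0).1 - (v.1.2 0).1 = 0 := v.2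
    exact hess_app S f hS hS1 hf1 hf2 v.1.1 v.1.2 (sub_eq_zero.1 hv)
  have a1 := sigNeg_comp_le (hess (action S (K1 + K2)) (oseq f (K1 + K2) w)) i2 hi2'
  have a2 := sigNeg_le_comp (hess (action S (K1 + K2)) (oseq f (K1 + K2) w)) i2 hi2'
  have a3 := sigNeg_comp_le (QuadraticMap.prod (hess (action S K1) (oseq f K1 w))
        (hess (action S K2) (oseq f K2 w))) i1 hi1'
  have a4 := sigNeg_le_comp (QuadraticMap.prod (hess (action S K1) (oseq f K1 w))
        (hess (action S K2) (oseq f K2 w))) i1 hi1'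
  rw [heq] at a1 a2
  rw [sigNeg_prod] at a3 a4
  have b1 : sigNeg (hess (action S (K1 + K2)) (oseq f (K1 + K2) w)) ≤
      sigNeg (hess (action S K1) (oseq f K1 w)) + sigNeg (hess (action S K2) (oseq f K2 w)) +
        n := by omega
  have b2 : sigNeg (hess (action S K1) (oseq f K1 w)) + sigNeg (hess (action S K2) (oseq f K2 w)) ≤
      sigNeg (hess (action S (K1 + K2)) (oseq f (K1 + K2) w)) + n := by omega
  have c1 : ((sigNeg (hess (action S (K1 + K2)) (oseq f (K1 + K2) w)) : ℕ) : ℝ) ≤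
      sigNeg (hess (action S K1) (oseq f K1 w)) + sigNeg (hess (action S K2) (oseq f K2 w)) +
        n := by exact_mod_cast b1
  have c2 : ((sigNeg (hess (action S K1) (oseq f K1 w)) : ℕ) : ℝ) +
      sigNeg (hess (action S K2) (oseq f K2 w)) ≤
      sigNeg (hess (action S (K1 + K2)) (oseq f (K1 + K2) w)) + n := by exact_mod_cast b2
  rw [abs_le]
  constructor <;> linarith

/-- index of iterates: almost additive with the constant `n` -/
theorem ind_add_n (hS : ∀ j, Gen (S j) (f j)) (N : ℕ) (hN : 0 < N) (hper : ∀ j, S (j + N) = S j)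
    (hfper : ∀ j, f (j + N) = f j) (w : Pt n) (hw : flw f N w = w) (p q : ℕ) (hp : 0 < p)
    (hq : 0 < q) :
    |(ind S f ((p + q) * N) w : ℝ) - ind S f (p * N) w - ind S f (q * N) w| ≤ n := by
  have h1 : p * N ≠ 0 := (Nat.mul_pos hp hN).ne'
  have h2 : q * N ≠ 0 := (Nat.mul_pos hq hN).ne'
  have h3 : p * N + q * N ≠ 0 := by omega
  have : NeZero (p * N) := ⟨h1⟩
  have : NeZero (q * N) := ⟨h2⟩
  have : NeZero (p * N + q * N) := ⟨h3⟩
  rw [Nat.add_mul]
  unfold ind
  rw [dif_neg h1, dif_neg h2, dif_neg h3]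
  have hq0 : flw f (q * N) w = w := IterA_flw_mul f hfper hw q 0
  exact core S f (fun j => (hS j).smooth) (IterA_S_mul S hper p)
    (IterA_flw_mul f hfper hw p) hq0

/-- **Index of iterates.** `L` is the mean of the index of the iterates. -/
theorem ind_near (hS : ∀ j, Gen (S j) (f j)) (N : ℕ) (hN : 0 < N) (hper : ∀ j, S (j + N) = S j)
    (hfper : ∀ j, f (j + N) = f j) (w : Pt n) (hw : flw f N w = w) (L : ℝ)
    (hL : Tendsto (fun m : ℕ => (ind S f ((m + 1) * N) w : ℝ) / (m + 1)) atTop (𝓝 L))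
    (p : ℕ) (hp : 0 < p) : |(ind S f (p * N) w : ℝ) - p * L| ≤ n := by
  obtain ⟨L', h1, h2⟩ := almost_additive (fun p => (ind S f (p * N) w : ℝ)) n
    (fun p q hp hq => ind_add_n S f hS N hN hper hfper w hw p q hp hq)
  have h3 := (tendsto_add_atTop_iff_nat (f := fun p : ℕ => (ind S f (p * N) w : ℝ) / p) 1).2 h2
  have h4 : L = L' := by
    refine tendsto_nhds_unique hL ?_
    simpa using h3
  rw [h4]
  exact h1 p hp

/-- mean index `0`: the index of the `p`-th iterate is at least `n (p N - 1)` -/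
theorem ind_ge (hS : ∀ j, Gen (S j) (f j)) (N : ℕ) (hN : 0 < N) (hper : ∀ j, S (j + N) = S j)
    (hfper : ∀ j, f (j + N) = f j) (w : Pt n) (hw : flw f N w = w)
    (hL : Tendsto (fun m : ℕ => (ind S f ((m + 1) * N) w : ℝ) / (m + 1)) atTop
      (𝓝 ((n : ℝ) * N)))
    (p : ℕ) (hp : 0 < p) : n * (p * N) ≤ ind S f (p * N) w + n := by
  have h1 := ind_near S f hS N hN hper hfper w hw _ hL p hp
  rw [abs_le] at h1
  have h2 : ((n * (p * N) : ℕ) : ℝ) ≤ ((ind S f (p * N) w + n : ℕ) : ℝ) := by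
    push_cast
    linarith [h1.1]
  exact_mod_cast h2

end Pool.Agent.H10.TU
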