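import Pool.Agent.H10.TU.Tay

/-!
# The level one object: the graph of the maximiser

`e j` is an orthogonal family of negative vectors of the Hessian of `f` at the critical point `z`,
and every point near `z` can be moved inside `y + span e` to the superlevel `f ≥ f z`. Then there
is a graph over the orthogonal complement of `span e` on which `f ≥ f z`, with equality only
at `z`.
-/

set_option autoImplicit false

open Filter Topology Metric

namespace Pool.Agent.H10.TU

variable {E : Type*} [NormedAddCommGroup E] [NormedSpace ℝ E]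

/-- an orthogonal family of negative vectors of the Hessian of `f` at `z` -/
structure NegFam (f : E → ℝ) (z : E) {d : ℕ} (e : Fin d → E) : Prop where
  orth : ∀ i j, i ≠ j → D2 f z (e i) (e j) = 0
  neg : ∀ i, D2 f z (e i) (e i) < 0

/-- the combination `∑ a_j e_j` -/
def comb {d : ℕ} (e : Fin d → E) (a : Fin d → ℝ) : E := ∑ j, a j • e j

/-- the coordinates along `e` -/
noncomputable def co1 (f : E → ℝ) (z : E) {d : ℕ} (e : Fin d → E) (w : E) (j : Fin d) : ℝ :=
  D2 f z w (e j) / D2 f z (e j) (e j)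

section basic

variable {f : E → ℝ} {z : E} {d : ℕ} {e : Fin d → E}

theorem comb_add (a b : Fin d → ℝ) : comb e (a + b) = comb e a + comb e b := by
  simp only [comb, Pi.add_apply, add_smul, Finset.sum_add_distrib]

theorem comb_smul (t : ℝ) (a : Fin d → ℝ) : comb e (t • a) = t • comb e a := by
  simp only [comb, Pi.smul_apply, smul_eq_mul, mul_smul, Finset.smul_sum]

theorem comb_sub (a b : Fin d → ℝ) : comb e (a - b) = comb e a - comb e b := by
  simp only [comb, Pi.sub_apply, sub_smul, Finset.sum_sub_distrib]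

theorem comb_zero : comb e 0 = 0 := by simp [comb]

theorem comb_norm_le (e : Fin d → E) : ∃ C > 0, ∀ a : Fin d → ℝ, ‖comb e a‖ ≤ C * ‖a‖ := by
  refine ⟨∑ j, ‖e j‖ + 1, by positivity, fun a => ?_⟩
  unfold comb
  calc ‖∑ j, a j • e j‖ ≤ ∑ j, ‖a j • e j‖ := norm_sum_le _ _
    _ ≤ ∑ j, ‖e j‖ * ‖a‖ := by
        refine Finset.sum_le_sum fun j _ => ?_
        rw [norm_smul, mul_comm]
        exact mul_le_mul_of_nonneg_left (norm_le_pi_norm a j) (norm_nonneg _)
    _ = (∑ j, ‖e j‖) * ‖a‖ := by rw [Finset.sum_mul]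
    _ ≤ (∑ j, ‖e j‖ + 1) * ‖a‖ := by
        refine mul_le_mul_of_nonneg_right (by linarith) (norm_nonneg _)

theorem comb_continuous (e : Fin d → E) : Continuous (comb e) := by
  unfold comb
  fun_prop

theorem co1_add (v w : E) : co1 f z e (v + w) = co1 f z e v + co1 f z e w := by
  funext j
  simp only [co1, map_add, ContinuousLinearMap.add_apply, Pi.add_apply, add_div]

theorem co1_smul (t : ℝ) (v : E) : co1 f z e (t • v) = t • co1 f z e v := by
  funext j
  simp only [co1, map_smul, ContinuousLinearMap.smul_apply, Pi.smul_apply, smul_eq_mul,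
    mul_div_assoc]

theorem co1_sub (v w : E) : co1 f z e (v - w) = co1 f z e v - co1 f z e w := by
  funext j
  simp only [co1, map_sub, ContinuousLinearMap.sub_apply, Pi.sub_apply, sub_div]

theorem co1_zero : co1 f z e 0 = 0 := by
  funext j
  simp [co1]

theorem co1_continuous : Continuous (co1 f z e) := by
  unfold co1
  fun_prop

theorem co1_norm_le (f : E → ℝ) (z : E) (e : Fin d → E) :
    ∃ C > 0, ∀ v : E, ‖co1 f z e v‖ ≤ C * ‖v‖ := by
  refine ⟨∑ j, ‖D2 f z‖ * ‖e j‖ / |D2 f z (e j) (e j)| + 1, by positivity, fun v => ?_⟩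
  refine (pi_norm_le_iff_of_nonneg (by positivity)).2 fun j => ?_
  have h1 : ‖D2 f z v (e j)‖ ≤ ‖D2 f z‖ * ‖v‖ * ‖e j‖ := (D2 f z).le_opNorm₂ v (e j)
  have h2 : ‖D2 f z‖ * ‖e j‖ / |D2 f z (e j) (e j)| ≤
      ∑ j, ‖D2 f z‖ * ‖e j‖ / |D2 f z (e j) (e j)| :=
    Finset.single_le_sum (f := fun j => ‖D2 f z‖ * ‖e j‖ / |D2 f z (e j) (e j)|)
      (fun i _ => by positivity) (Finset.mem_univ j)
  calc ‖co1 f z e v j‖ = ‖D2 f z v (e j)‖ / |D2 f z (e j) (e j)| := by
        rw [co1, norm_div, Real.norm_eq_abs (D2 f z (e j) (e j))]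
    _ ≤ (‖D2 f z‖ * ‖v‖ * ‖e j‖) / |D2 f z (e j) (e j)| := by gcongr
    _ = (‖D2 f z‖ * ‖e j‖ / |D2 f z (e j) (e j)|) * ‖v‖ := by ring
    _ ≤ _ := by
        refine mul_le_mul_of_nonneg_right ?_ (norm_nonneg _)
        linarith

theorem co1_comb (h : NegFam f z e) (a : Fin d → ℝ) : co1 f z e (comb e a) = a := by
  funext j
  simp only [co1, comb, map_sum, map_smul, ContinuousLinearMap.sum_apply,
    ContinuousLinearMap.smul_apply, smul_eq_mul]
  rw [Finset.sum_eq_single j]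
  · rw [mul_div_assoc, div_self (h.neg j).ne, mul_one]
  · intro i _ hi
    rw [h.orth i j hi, mul_zero]
  · intro hj
    exact absurd (Finset.mem_univ j) hj

theorem D2_comb (h : NegFam f z e) (v : E) (hv : co1 f z e v = 0) (a : Fin d → ℝ) :
    D2 f z v (comb e a) = 0 := by
  simp only [comb, map_sum, map_smul, smul_eq_mul]
  refine Finset.sum_eq_zero fun j _ => ?_
  have h1 : co1 f z e v j = 0 := by rw [hv]; rfl
  rw [co1, div_eq_zero_iff] at h1
  rcases h1 with h1 | h1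
  · rw [h1, mul_zero]
  · exact absurd h1 (h.neg j).ne

theorem D2_comb_comb (h : NegFam f z e) (a : Fin d → ℝ) :
    D2 f z (comb e a) (comb e a) = ∑ j, a j ^ 2 * D2 f z (e j) (e j) := by
  simp only [comb, map_sum, map_smul, ContinuousLinearMap.sum_apply,
    ContinuousLinearMap.smul_apply, smul_eq_mul]
  refine Finset.sum_congr rfl fun j _ => ?_
  rw [Finset.sum_eq_single j]
  · ring
  · intro i _ hi
    rw [h.orth i j hi, mul_zero]
  · intro hj
    exact absurd (Finset.mem_univ j) hj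

theorem D2_split (hf : ContDiff ℝ 2 f) (h : NegFam f z e) (v : E) (hv : co1 f z e v = 0)
    (a : Fin d → ℝ) : D2 f z (v + comb e a) (v + comb e a) =
      D2 f z v v + D2 f z (comb e a) (comb e a) := by
  have h1 := D2_comb h v hv a
  have h2 := D2_sym hf z (comb e a) v
  simp only [map_add, ContinuousLinearMap.add_apply]
  rw [h2, h1]
  ring

theorem D2_comb_le (h : NegFam f z e) : ∃ c > 0, ∀ a : Fin d → ℝ,
    D2 f z (comb e a) (comb e a) ≤ - c * ‖a‖ ^ 2 := by
  rcases isEmpty_or_nonempty (Fin d) with hd | hd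
  · refine ⟨1, one_pos, fun a => ?_⟩
    have h1 : a = 0 := Subsingleton.elim _ _
    rw [h1, comb_zero]
    simp
  · obtain ⟨j0, -, hj0⟩ := Finset.exists_max_image Finset.univ (fun j => D2 f z (e j) (e j))
      Finset.univ_nonempty
    refine ⟨- D2 f z (e j0) (e j0), by linarith [h.neg j0], fun a => ?_⟩
    rw [D2_comb_comb h, neg_neg]
    obtain ⟨i, hi⟩ : ∃ i, ‖a‖ = ‖a i‖ := by
      obtain ⟨i, -, hi⟩ := Finset.exists_max_image Finset.univ (fun j => ‖a j‖)
        Finset.univ_nonempty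
      exact ⟨i, le_antisymm ((pi_norm_le_iff_of_nonneg (norm_nonneg _)).2
        fun j => hi j (Finset.mem_univ j)) (norm_le_pi_norm a i)⟩
    have h2 : ∑ j, a j ^ 2 * D2 f z (e j) (e j) ≤ a i ^ 2 * D2 f z (e i) (e i) := by
      rw [← Finset.add_sum_erase _ _ (Finset.mem_univ i)]
      have : ∑ j ∈ Finset.univ.erase i, a j ^ 2 * D2 f z (e j) (e j) ≤ 0 :=
        Finset.sum_nonpos fun j _ => mul_nonpos_of_nonneg_of_nonpos (sq_nonneg _) (h.neg j).le
      linarith
    have h3 : a i ^ 2 = ‖a‖ ^ 2 := by rw [hi, Real.norm_eq_abs, sq_abs]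
    rw [h3] at h2
    refine h2.trans ?_
    rw [mul_comm]
    exact mul_le_mul_of_nonneg_right (hj0 i (Finset.mem_univ i)) (sq_nonneg _)

/-- the base point in the orthogonal complement -/
noncomputable def bp (f : E → ℝ) (z : E) {d : ℕ} (e : Fin d → E) (w : E) : E :=
  w - comb e (co1 f z e (w - z))

theorem bp_add (w : E) : w = bp f z e w + comb e (co1 f z e (w - z)) := by
  rw [bp, sub_add_cancel]

theorem bp_co1 (h : NegFam f z e) (w : E) : co1 f z e (bp f z e w - z) = 0 := by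
  have h1 : bp f z e w - z = (w - z) - comb e (co1 f z e (w - z)) := by
    rw [bp]; abel
  rw [h1, co1_sub, co1_comb h, sub_self]

theorem bp_continuous : Continuous (bp f z e) := by
  unfold bp
  exact continuous_id.sub ((comb_continuous e).comp (co1_continuous.comp
    (continuous_id.sub continuous_const)))

theorem bp_norm_le (f : E → ℝ) (z : E) (e : Fin d → E) :
    ∃ C ≥ 1, ∀ w : E, ‖bp f z e w - z‖ ≤ C * ‖w - z‖ := by
  obtain ⟨C1, hC1, h1⟩ := comb_norm_le e
  obtain ⟨C2, hC2, h2⟩ := co1_norm_le f z e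
  refine ⟨1 + C1 * C2, by nlinarith [mul_pos hC1 hC2], fun w => ?_⟩
  have h3 : bp f z e w - z = (w - z) - comb e (co1 f z e (w - z)) := by
    rw [bp]; abel
  rw [h3]
  calc ‖(w - z) - comb e (co1 f z e (w - z))‖ ≤ ‖w - z‖ + ‖comb e (co1 f z e (w - z))‖ :=
        norm_sub_le _ _
    _ ≤ ‖w - z‖ + C1 * (C2 * ‖w - z‖) := by
        gcongr
        exact (h1 _).trans (mul_le_mul_of_nonneg_left (h2 _) hC1.le)
    _ = (1 + C1 * C2) * ‖w - z‖ := by ring

end basic

section concave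

variable {f : E → ℝ} {z : E} {d : ℕ} {e : Fin d → E}

/-- strong concavity along `e` near `z` -/
theorem mid_concave (hf : ContDiff ℝ 2 f) (h : NegFam f z e) : ∃ c > 0, ∃ r > 0,
    ∀ p : E, ‖p - z‖ ≤ r → ∀ a b : Fin d → ℝ, ‖a‖ ≤ r → ‖b‖ ≤ r →
      f (p + comb e a) + f (p + comb e b) - 2 * f (p + comb e ((1 / 2 : ℝ) • (a + b))) ≤
        - c * ‖a - b‖ ^ 2 := by
  obtain ⟨c, hc, h1⟩ := D2_comb_le h
  obtain ⟨C, hC, h2⟩ := comb_norm_le e
  obtain ⟨r, hr, h3⟩ := second_diff hf z (ε := c / (2 * C ^ 2)) (by positivity)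
  refine ⟨c / 8, by positivity, min (r / 2) (min (r / (2 * C)) (r / 2)), by positivity, ?_⟩
  intro p hp a b ha hb
  have hr1 : ‖p - z‖ ≤ r / 2 := hp.trans (min_le_left _ _)
  have ha1 : ‖a‖ ≤ r / (2 * C) := ha.trans ((min_le_right _ _).trans (min_le_left _ _))
  have hb1 : ‖b‖ ≤ r / (2 * C) := hb.trans ((min_le_right _ _).trans (min_le_left _ _))
  have hCa : C * ‖a‖ ≤ r / 2 := by
    calc C * ‖a‖ ≤ C * (r / (2 * C)) := by gcongr
      _ = r / 2 := by field_simp
  have hCb : C * ‖b‖ ≤ r / 2 := by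
    calc C * ‖b‖ ≤ C * (r / (2 * C)) := by gcongr
      _ = r / 2 := by field_simp
  have hhalf : ‖(1 / 2 : ℝ)‖ = 1 / 2 := by norm_num
  set k : E := comb e ((1 / 2 : ℝ) • (a - b)) with hk
  set y : E := p + comb e ((1 / 2 : ℝ) • (a + b)) with hy
  have e1 : y + k = p + comb e a := by
    rw [hy, hk, add_assoc, ← comb_add]
    congr 2
    rw [← smul_add]
    funext j
    simp only [Pi.smul_apply, Pi.add_apply, Pi.sub_apply, smul_eq_mul]
    ring
  have e2 : y - k = p + comb e b := by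
    rw [hy, hk, add_sub_assoc, ← comb_sub]
    congr 2
    rw [← smul_sub]
    funext j
    simp only [Pi.smul_apply, Pi.add_apply, Pi.sub_apply, smul_eq_mul]
    ring
  have hkn : ‖k‖ ≤ C * (‖a - b‖ / 2) := by
    refine (h2 _).trans (le_of_eq ?_)
    rw [norm_smul, hhalf]
    ring
  have hk1 : ‖k‖ ≤ r := by
    refine hkn.trans ?_
    have := norm_sub_le a b
    nlinarith
  have hy1 : ‖y - z‖ ≤ r := by
    have h4 : y - z = (p - z) + comb e ((1 / 2 : ℝ) • (a + b)) := by rw [hy]; abel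
    rw [h4]
    refine (norm_add_le _ _).trans ?_
    have h5 : ‖comb e ((1 / 2 : ℝ) • (a + b))‖ ≤ C * ((‖a‖ + ‖b‖) / 2) := by
      refine (h2 _).trans ?_
      rw [norm_smul, hhalf]
      have := norm_add_le a b
      nlinarith
    nlinarith
  have h6 := (abs_le.1 (h3 y k hy1 hk1)).2
  rw [e1, e2] at h6
  have h7 : D2 f z k k ≤ - c * (‖a - b‖ / 2) ^ 2 := by
    refine (h1 _).trans (le_of_eq ?_)
    rw [norm_smul, hhalf]
    ring
  have h8 : c / (2 * C ^ 2) * ‖k‖ ^ 2 ≤ c / 2 * (‖a - b‖ / 2) ^ 2 := by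
    calc c / (2 * C ^ 2) * ‖k‖ ^ 2 ≤ c / (2 * C ^ 2) * (C * (‖a - b‖ / 2)) ^ 2 := by gcongr
      _ = c / 2 * (‖a - b‖ / 2) ^ 2 := by field_simp
  have h9 : - c * (‖a - b‖ / 2) ^ 2 + c / 2 * (‖a - b‖ / 2) ^ 2 = - (c / 8) * ‖a - b‖ ^ 2 := by
    ring
  linarith

/-- the maximiser -/
theorem exists_max (hf : ContDiff ℝ 2 f) (e : Fin d → E) (r : ℝ) (hr : 0 ≤ r) :
    ∃ h0 : E → Fin d → ℝ, ∀ p, ‖h0 p‖ ≤ r ∧ ∀ a, ‖a‖ ≤ r →
      f (p + comb e a) ≤ f (p + comb e (h0 p)) := by
  have h1 : ∀ p : E, ∃ a : Fin d → ℝ, ‖a‖ ≤ r ∧ ∀ b, ‖b‖ ≤ r →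
      f (p + comb e b) ≤ f (p + comb e a) := by
    intro p
    have h2 : IsCompact (closedBall (0 : Fin d → ℝ) r) := isCompact_closedBall _ _
    have h3 : ContinuousOn (fun a => f (p + comb e a)) (closedBall (0 : Fin d → ℝ) r) :=
      (hf.continuous.comp (continuous_const.add (comb_continuous e))).continuousOn
    obtain ⟨a, ha, ha'⟩ := h2.exists_isMaxOn ⟨0, mem_closedBall_self hr⟩ h3
    exact ⟨a, mem_closedBall_zero_iff.1 ha, fun b hb => ha' (mem_closedBall_zero_iff.2 hb)⟩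
  choose h0 h2 using h1
  exact ⟨h0, h2⟩

end concave

end Pool.Agent.H10.TU
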