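import Pool.Agent.H10.TU.Lev1

/-!
# The level one object, main part
-/

set_option autoImplicit false

open Filter Topology Metric

namespace Pool.Agent.H10.TU

variable {E : Type*} [NormedAddCommGroup E] [NormedSpace ℝ E]
variable {f : E → ℝ} {z : E} {d : ℕ} {e : Fin d → E}

/-- strict maximality -/
theorem max_gap {c r : ℝ} {h0 : E → Fin d → ℝ}
    (hm : ∀ p : E, ‖p - z‖ ≤ r → ∀ a b : Fin d → ℝ, ‖a‖ ≤ r → ‖b‖ ≤ r →
      f (p + comb e a) + f (p + comb e b) - 2 * f (p + comb e ((1 / 2 : ℝ) • (a + b))) ≤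
        - c * ‖a - b‖ ^ 2)
    (hh : ∀ p, ‖h0 p‖ ≤ r ∧ ∀ a, ‖a‖ ≤ r → f (p + comb e a) ≤ f (p + comb e (h0 p)))
    {p : E} (hp : ‖p - z‖ ≤ r) {a : Fin d → ℝ} (ha : ‖a‖ ≤ r) :
    f (p + comb e a) ≤ f (p + comb e (h0 p)) - c * ‖a - h0 p‖ ^ 2 := by
  have h1 := hm p hp a (h0 p) ha (hh p).1
  have h2 : ‖(1 / 2 : ℝ) • (a + h0 p)‖ ≤ r := by
    rw [norm_smul]
    have h3 := norm_add_le a (h0 p)
    have h4 := (hh p).1
    have h5 : ‖(1 / 2 : ℝ)‖ = 1 / 2 := by norm_num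
    rw [h5]
    linarith
  have h3 := (hh p).2 _ h2
  linarith

/-- the maximiser is continuous -/
theorem max_continuousOn [FiniteDimensional ℝ E] (hf : Continuous f) {c r : ℝ} (hc : 0 < c)
    {h0 : E → Fin d → ℝ}
    (hm : ∀ p : E, ‖p - z‖ ≤ r → ∀ a b : Fin d → ℝ, ‖a‖ ≤ r → ‖b‖ ≤ r →
      f (p + comb e a) + f (p + comb e b) - 2 * f (p + comb e ((1 / 2 : ℝ) • (a + b))) ≤
        - c * ‖a - b‖ ^ 2)
    (hh : ∀ p, ‖h0 p‖ ≤ r ∧ ∀ a, ‖a‖ ≤ r → f (p + comb e a) ≤ f (p + comb e (h0 p))) :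
    ContinuousOn h0 (closedBall z r) := by
  have : ProperSpace E := FiniteDimensional.proper ℝ E
  have hK : IsCompact (closedBall z r ×ˢ closedBall (0 : Fin d → ℝ) r) :=
    (isCompact_closedBall _ _).prod (isCompact_closedBall _ _)
  have hF : Continuous (fun x : E × (Fin d → ℝ) => f (x.1 + comb e x.2)) :=
    hf.comp (continuous_fst.add ((comb_continuous e).comp continuous_snd))
  have hu := hK.uniformContinuousOn_of_continuous hF.continuousOn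
  rw [Metric.uniformContinuousOn_iff] at hu
  rw [Metric.continuousOn_iff]
  intro p hp ε hε
  obtain ⟨δ, hδ, h1⟩ := hu (c * ε ^ 2) (by positivity)
  refine ⟨δ, hδ, ?_⟩
  intro p' hp' hd
  have hp1 : ‖p - z‖ ≤ r := by rwa [mem_closedBall, dist_eq_norm] at hp
  have hp1' : ‖p' - z‖ ≤ r := by rwa [mem_closedBall, dist_eq_norm] at hp'
  have key : ∀ a : Fin d → ℝ, ‖a‖ ≤ r → |f (p' + comb e a) - f (p + comb e a)| < c * ε ^ 2 := by
    intro a ha
    have h2 := h1 (p', a) ⟨hp', mem_closedBall_zero_iff.2 ha⟩ (p, a)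
      ⟨hp, mem_closedBall_zero_iff.2 ha⟩ (by simpa [Prod.dist_eq] using hd)
    rwa [Real.dist_eq] at h2
  have g1 := max_gap hm hh hp1 (hh p').1
  have g2 := max_gap hm hh hp1' (hh p).1
  have k1 := abs_lt.1 (key _ (hh p).1)
  have k2 := abs_lt.1 (key _ (hh p').1)
  have e1 : ‖h0 p - h0 p'‖ ^ 2 = ‖h0 p' - h0 p‖ ^ 2 := by rw [norm_sub_rev]
  rw [e1] at g2
  have h3 : c * ‖h0 p' - h0 p‖ ^ 2 < c * ε ^ 2 := by nlinarith [k1.1, k1.2, k2.1, k2.2]
  have h4 : ‖h0 p' - h0 p‖ ^ 2 < ε ^ 2 := lt_of_mul_lt_mul_left h3 hc.le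
  rw [dist_eq_norm]
  exact lt_of_pow_lt_pow_left₀ 2 hε.le h4

/-- along `e` the function is below `f z - c |a|^2` at the base point `z` -/
theorem base_le (hf : ContDiff ℝ 2 f) (hz : fderiv ℝ f z = 0) (h : NegFam f z e) :
    ∃ r > 0, ∀ a : Fin d → ℝ, ‖a‖ ≤ r → f (z + comb e a) ≤ f z := by
  obtain ⟨c, hc, h1⟩ := D2_comb_le h
  obtain ⟨C, hC, h2⟩ := comb_norm_le e
  obtain ⟨r, hr, h3⟩ := taylor_lip hf hz (ε := c / (2 * C ^ 2)) (by positivity)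
  refine ⟨r / C, by positivity, fun a ha => ?_⟩
  have h4 : ‖comb e a‖ ≤ r := by
    refine (h2 a).trans ?_
    calc C * ‖a‖ ≤ C * (r / C) := by gcongr
      _ = r := by field_simp
  have h5 := (abs_le.1 (h3 (comb e a) 0 h4 (by simpa using hr.le))).2
  simp only [add_zero, map_zero, zero_div, sub_zero, norm_zero] at h5
  rw [max_eq_left (norm_nonneg _)] at h5
  have h6 := h1 a
  have h7 : c / (2 * C ^ 2) * ‖comb e a‖ * ‖comb e a‖ ≤ c / 2 * ‖a‖ ^ 2 := by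
    calc c / (2 * C ^ 2) * ‖comb e a‖ * ‖comb e a‖
        ≤ c / (2 * C ^ 2) * (C * ‖a‖) * (C * ‖a‖) := by
          gcongr
          · exact h2 a
          · exact h2 a
      _ = c / 2 * ‖a‖ ^ 2 := by field_simp
  nlinarith [sq_nonneg ‖a‖]

/-- the maximiser is small compared with the base point -/
theorem max_little [FiniteDimensional ℝ E] (hf : ContDiff ℝ 2 f) (hz : fderiv ℝ f z = 0)
    (h : NegFam f z e) {r : ℝ} (hr : 0 < r) {h0 : E → Fin d → ℝ}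
    (hcont : ContinuousOn h0 (closedBall z r)) (h00 : h0 z = 0)
    (hh : ∀ p, ‖h0 p‖ ≤ r ∧ ∀ a, ‖a‖ ≤ r → f (p + comb e a) ≤ f (p + comb e (h0 p)))
    {ε : ℝ} (hε : 0 < ε) :
    ∃ ρ > 0, ∀ p, ‖p - z‖ ≤ ρ → co1 f z e (p - z) = 0 → ‖h0 p‖ ≤ ε * ‖p - z‖ := by
  obtain ⟨c, hc, h1⟩ := D2_comb_le h
  obtain ⟨C, hC, h2⟩ := comb_norm_le e
  set ε' := min (c / (4 * C ^ 2)) (ε * c / (4 * C)) with hε'
  have hε'0 : 0 < ε' := by positivity
  obtain ⟨s, hs, h3⟩ := taylor_lip hf hz hε'0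
  have h4 : ∀ᶠ p in 𝓝[closedBall z r] z, ‖h0 p‖ < s / (2 * C) := by
    have h5 := (hcont z (mem_closedBall_self hr.le)).norm
    have h6 : ‖h0 z‖ < s / (2 * C) := by rw [h00, norm_zero]; positivity
    exact h5.eventually_lt_const h6
  rw [nhdsWithin, eventually_inf_principal] at h4
  obtain ⟨ρ, hρ, h5⟩ := Metric.eventually_nhds_iff_ball.1 h4
  refine ⟨min (ρ / 2) (min r (s / 2)), by positivity, ?_⟩
  intro p hp hv
  have p1 : ‖p - z‖ ≤ ρ / 2 := hp.trans (min_le_left _ _)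
  have p2 : ‖p - z‖ ≤ r := hp.trans ((min_le_right _ _).trans (min_le_left _ _))
  have p3 : ‖p - z‖ ≤ s / 2 := hp.trans ((min_le_right _ _).trans (min_le_right _ _))
  set v := p - z with hvdef
  set a := h0 p with ha
  have a1 : ‖a‖ < s / (2 * C) := by
    refine h5 p ?_ ?_
    · rw [mem_ball, dist_eq_norm]
      show ‖v‖ < ρ
      linarith
    · rw [mem_closedBall, dist_eq_norm]
      exact p2
  have a2 : ‖comb e a‖ ≤ C * ‖a‖ := h2 a
  have a3 : C * ‖a‖ ≤ s / 2 := by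
    calc C * ‖a‖ ≤ C * (s / (2 * C)) := by gcongr
      _ = s / 2 := by field_simp
  have hzv : z + v = p := by rw [hvdef]; abel
  have b1 : ‖v + comb e a‖ ≤ s := by
    refine (norm_add_le _ _).trans ?_
    linarith
  have b2 : ‖v‖ ≤ s := by linarith
  have b3 := (abs_le.1 (h3 (v + comb e a) v b1 b2)).2
  rw [← add_assoc, hzv, D2_split hf h v hv a] at b3
  have b4 := (hh p).2 0 (by simpa using hr.le)
  rw [comb_zero, add_zero] at b4
  have b5 : v + comb e a - v = comb e a := by abel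
  rw [b5] at b3
  have b6 : max ‖v + comb e a‖ ‖v‖ ≤ ‖v‖ + C * ‖a‖ := by
    refine max_le ((norm_add_le _ _).trans (by linarith)) ?_
    have := mul_nonneg hC.le (norm_nonneg a)
    linarith
  have b7 : ε' * max ‖v + comb e a‖ ‖v‖ * ‖comb e a‖ ≤ ε' * (‖v‖ + C * ‖a‖) * (C * ‖a‖) := by
    gcongr
  have b8 := h1 a
  have c1 : ε' * (C * ‖a‖) * (C * ‖a‖) ≤ c / 4 * ‖a‖ ^ 2 := by
    calc ε' * (C * ‖a‖) * (C * ‖a‖) ≤ (c / (4 * C ^ 2)) * (C * ‖a‖) * (C * ‖a‖) := by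
          gcongr
          exact min_le_left _ _
      _ = c / 4 * ‖a‖ ^ 2 := by field_simp
  have c2 : ε' * ‖v‖ * (C * ‖a‖) ≤ (ε * c / 4) * ‖v‖ * ‖a‖ := by
    calc ε' * ‖v‖ * (C * ‖a‖) ≤ (ε * c / (4 * C)) * ‖v‖ * (C * ‖a‖) := by
          gcongr
          exact min_le_right _ _
      _ = (ε * c / 4) * ‖v‖ * ‖a‖ := by field_simp
  have c3 : c / 4 * ‖a‖ ^ 2 ≤ (ε * c / 4) * ‖v‖ * ‖a‖ := by
    have hfa : f (p + comb e (h0 p)) = f (p + comb e a) := by rw [ha]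
    nlinarith
  rcases eq_or_lt_of_le (norm_nonneg a) with h0a | h0a
  · rw [← h0a]; positivity
  · have c4 : c / 4 * ‖a‖ * ‖a‖ ≤ c / 4 * (ε * ‖v‖) * ‖a‖ := by nlinarith
    have c5 := le_of_mul_le_mul_right c4 h0a
    exact le_of_mul_le_mul_left c5 (by positivity)

end Pool.Agent.H10.TU
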