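import Pool.Agent.H10.TU.Lev1b

/-!
# The level one object: final statement
-/

set_option autoImplicit false

open Filter Topology Metric

namespace Pool.Agent.H10.TU

variable {E : Type*} [NormedAddCommGroup E] [NormedSpace ℝ E]
variable {f : E → ℝ} {z : E} {d : ℕ} {e : Fin d → E}

/-- every point near `z` can be moved along `e` into the superlevel `f ≥ f z` -/
def SDe (f : E → ℝ) (z : E) {d : ℕ} (e : Fin d → E) : Prop :=
  ∀ r > 0, ∃ ρ > 0, ∀ y, ‖y - z‖ < ρ → ∃ a : Fin d → ℝ, ‖a‖ ≤ r ∧ f z ≤ f (y + comb e a)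

/-- If the maximum over the fibre is equal to `f z`, the point is critical. -/
theorem crit_of_max [FiniteDimensional ℝ E] (hf : ContDiff ℝ 2 f) (h : NegFam f z e) {r : ℝ}
    {h0 : E → Fin d → ℝ}
    (hcont : ContinuousOn h0 (closedBall z r))
    (hh : ∀ p, ‖h0 p‖ ≤ r ∧ ∀ a, ‖a‖ ≤ r → f (p + comb e a) ≤ f (p + comb e (h0 p)))
    {ρ : ℝ} (hρr : ρ ≤ r) (hge : ∀ p, ‖p - z‖ < ρ → f z ≤ f (p + comb e (h0 p)))
    {p : E} (hp : ‖p - z‖ < ρ) (hint : ‖h0 p‖ < r)
    (heq : f (p + comb e (h0 p)) = f z) : fderiv ℝ f (p + comb e (h0 p)) = 0 := by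
  set w := p + comb e (h0 p) with hw
  have hd : HasStrictFDerivAt f (fderiv ℝ f w) w :=
    (hf.contDiffAt.hasStrictFDerivAt (by norm_num))
  -- directions in the span
  have h1 : ∀ a : Fin d → ℝ, fderiv ℝ f w (comb e a) = 0 := by
    intro a
    have h2 : IsLocalMax (fun t : ℝ => f (w + t • comb e a)) 0 := by
      have h3 : ∀ᶠ t : ℝ in 𝓝 0, ‖h0 p + t • a‖ < r := by
        have h4 : Continuous (fun t : ℝ => ‖h0 p + t • a‖) := by fun_prop
        have h5 : ‖h0 p + (0 : ℝ) • a‖ < r := by simpa using hint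
        exact h4.continuousAt.eventually_lt_const h5
      filter_upwards [h3] with t ht
      have h6 := (hh p).2 _ ht.le
      rw [comb_add, comb_smul, ← add_assoc] at h6
      simpa using h6
    have h7 : HasDerivAt (fun t : ℝ => f (w + t • comb e a)) (fderiv ℝ f w (comb e a)) 0 := by
      have h8 : HasDerivAt (fun t : ℝ => w + t • comb e a) (comb e a) 0 := by
        simpa using ((hasDerivAt_id (0 : ℝ)).smul_const (comb e a)).const_add w
      have h9 : HasFDerivAt f (fderiv ℝ f w) (w + (0 : ℝ) • comb e a) := by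
        simpa using hd.hasFDerivAt
      exact h9.comp_hasDerivAt (0 : ℝ) h8
    exact h2.hasDerivAt_eq_zero h7
  -- directions in the complement
  have h2 : ∀ v, co1 f z e v = 0 → ¬ fderiv ℝ f w v < 0 := by
    intro v hv hneg
    have hv0 : v ≠ 0 := by
      rintro rfl
      simp at hneg
    have hvn : 0 < ‖v‖ := norm_pos_iff.2 hv0
    set s := - fderiv ℝ f w v / (2 * ‖v‖) with hs
    have hs0 : 0 < s := by
      rw [hs]
      have : 0 < - fderiv ℝ f w v := by linarith
      positivity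
    have h3 := hd.isLittleO.def hs0
    rw [nhds_prod_eq] at h3
    obtain ⟨t1, ht1, h4⟩ := (Metric.nhds_basis_ball.prod_self).eventually_iff.1 h3
    -- continuity of `q t = p + comb (h0 (p + t v))`
    have hq : Tendsto (fun t : ℝ => p + comb e (h0 (p + t • v))) (𝓝 0) (𝓝 w) := by
      have h5 : ContinuousAt h0 p := by
        refine hcont.continuousAt (Filter.mem_of_superset
          (Metric.isOpen_ball.mem_nhds (x := p) (s := ball z ρ) ?_) ?_)
        · rwa [mem_ball, dist_eq_norm]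
        · exact ball_subset_closedBall.trans (closedBall_subset_closedBall hρr)
      have h6 : Tendsto (fun t : ℝ => p + t • v) (𝓝 0) (𝓝 p) := by
        have h7 : Continuous (fun t : ℝ => p + t • v) := by fun_prop
        have h8 := h7.tendsto 0
        simpa using h8
      have h7 := (comb_continuous e).continuousAt (x := h0 p)
      exact (h7.tendsto.comp (h5.tendsto.comp h6)).const_add p
    have hq' : Tendsto (fun t : ℝ => (p + comb e (h0 (p + t • v))) + t • v) (𝓝 0) (𝓝 w) := by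
      have h5 : Tendsto (fun t : ℝ => t • v) (𝓝 0) (𝓝 0) := by
        have h7 : Continuous (fun t : ℝ => t • v) := by fun_prop
        simpa using h7.tendsto 0
      simpa using hq.add h5
    have hpt : ∀ᶠ t : ℝ in 𝓝 0, ‖p + t • v - z‖ < ρ := by
      have h7 : Continuous (fun t : ℝ => ‖p + t • v - z‖) := by fun_prop
      have h8 : ‖p + (0 : ℝ) • v - z‖ < ρ := by simpa using hp
      exact h7.continuousAt.eventually_lt_const h8
    have hb1 := hq.eventually (Metric.ball_mem_nhds w ht1)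
    have hb2 := hq'.eventually (Metric.ball_mem_nhds w ht1)
    have hall : ∀ᶠ t : ℝ in 𝓝[>] 0, ‖p + t • v - z‖ < ρ ∧
        (p + comb e (h0 (p + t • v))) ∈ ball w t1 ∧
        ((p + comb e (h0 (p + t • v))) + t • v) ∈ ball w t1 ∧ 0 < t := by
      filter_upwards [nhdsWithin_le_nhds hpt, nhdsWithin_le_nhds hb1, nhdsWithin_le_nhds hb2,
        self_mem_nhdsWithin] with t a1 a2 a3 a4
      exact ⟨a1, a2, a3, a4⟩
    obtain ⟨t, a1, a2, a3, a4⟩ := hall.exists
    have b1 := @h4 ((p + comb e (h0 (p + t • v))) + t • v, p + comb e (h0 (p + t • v))) ⟨a3, a2⟩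
    have e1 : ((p + comb e (h0 (p + t • v))) + t • v) - (p + comb e (h0 (p + t • v))) = t • v := by
      abel
    simp only [e1, map_smul, smul_eq_mul] at b1
    rw [Real.norm_eq_abs, norm_smul, Real.norm_eq_abs, abs_of_pos a4] at b1
    have b2 := (abs_le.1 b1).2
    have e2 : (p + comb e (h0 (p + t • v))) + t • v = (p + t • v) + comb e (h0 (p + t • v)) := by
      abel
    rw [e2] at b2
    have b3 := hge _ a1
    have b4 := (hh p).2 _ (hh (p + t • v)).1
    rw [← hw, heq] at b4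
    have b5 : s * (t * ‖v‖) = - (t * fderiv ℝ f w v) / 2 := by
      rw [hs]
      field_simp
    have b6 : t * fderiv ℝ f w v < 0 := mul_neg_of_pos_of_neg a4 hneg
    linarith
  ext v
  have h3 : v = (v - comb e (co1 f z e v)) + comb e (co1 f z e v) := by abel
  have h4 : co1 f z e (v - comb e (co1 f z e v)) = 0 := by
    rw [co1_sub, co1_comb h, sub_self]
  have h5 : fderiv ℝ f w (v - comb e (co1 f z e v)) = 0 := by
    have a1 := h2 _ h4
    have a2 := h2 (-(v - comb e (co1 f z e v))) (by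
      have := co1_smul (f := f) (z := z) (e := e) (-1 : ℝ) (v - comb e (co1 f z e v))
      rw [neg_one_smul] at this
      rw [this, h4, smul_zero])
    rw [map_neg] at a2
    linarith [not_lt.1 a1, not_lt.1 a2]
  rw [h3, map_add, h5, h1]
  simp

/-- **The level one object.** -/
theorem level_one [FiniteDimensional ℝ E] (hf : ContDiff ℝ 2 f) (hz : fderiv ℝ f z = 0)
    (hiso : ∃ r > 0, ∀ y, ‖y - z‖ ≤ r → fderiv ℝ f y = 0 → y = z)
    (h : NegFam f z e) (hSD : SDe f z e) :
    ∃ (hh : E → Fin d → ℝ), ∃ ρ₀ > 0, ContinuousOn hh (closedBall z ρ₀) ∧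
      (∀ ε > 0, ∃ ρ > 0, ∀ w, ‖w - z‖ ≤ ρ → ‖hh w‖ ≤ ε * ‖w - z‖) ∧
      (∀ w, ‖w - z‖ ≤ ρ₀ → co1 f z e (w - z) = hh w → f z ≤ f w ∧ (f w = f z → w = z)) ∧
      (∀ ε > 0, ∃ ρ > 0, ∀ w, ‖w - z‖ ≤ ρ →
        (∀ j, co1 f z e (w - z) j * (co1 f z e (w - z) j - hh w j) ≤ 0) →
        f z - ε * ‖w - z‖ ^ 2 ≤ f w) := by
  obtain ⟨c, hc, r1, hr1, hm⟩ := mid_concave hf h
  obtain ⟨r2, hr2, hbase⟩ := base_le hf hz h
  set r := min r1 r2 with hrdef
  have hr : 0 < r := by positivity
  obtain ⟨h0, hh0⟩ := exists_max hf e r hr.le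
  have hm' : ∀ p : E, ‖p - z‖ ≤ r → ∀ a b : Fin d → ℝ, ‖a‖ ≤ r → ‖b‖ ≤ r →
      f (p + comb e a) + f (p + comb e b) - 2 * f (p + comb e ((1 / 2 : ℝ) • (a + b))) ≤
        - c * ‖a - b‖ ^ 2 := by
    intro p hp a b ha hb
    exact hm p (hp.trans (min_le_left _ _)) a b (ha.trans (min_le_left _ _))
      (hb.trans (min_le_left _ _))
  have hcont := max_continuousOn (z := z) hf.continuous hc hm' hh0
  have h00 : h0 z = 0 := by
    have h1 := max_gap hm' hh0 (p := z) (by simpa using hr.le) (a := 0) (by simpa using hr.le)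
    rw [comb_zero, add_zero, zero_sub, norm_neg] at h1
    have h2 := hbase (h0 z) ((hh0 z).1.trans (min_le_right _ _))
    have h3 : c * ‖h0 z‖ ^ 2 ≤ 0 := by linarith
    have h4 : ‖h0 z‖ ^ 2 ≤ 0 := by
      by_contra h5
      push Not at h5
      nlinarith
    have h5 : ‖h0 z‖ = 0 := by
      have := sq_nonneg ‖h0 z‖
      exact pow_eq_zero_iff (two_ne_zero) |>.1 (le_antisymm h4 this)
    exact norm_eq_zero.1 h5
  have hlit := fun {ε : ℝ} (hε : 0 < ε) => max_little hf hz h hr hcont h00 hh0 hε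
  obtain ⟨CV, hCV, hbp⟩ := bp_norm_le f z e
  obtain ⟨C, hC, hcomb⟩ := comb_norm_le e
  obtain ⟨ri, hri, hiso⟩ := hiso
  obtain ⟨ρ1, hρ1, hSD1⟩ := hSD r hr
  obtain ⟨ρ2, hρ2, hlit2⟩ := hlit (ε := 1) one_pos
  have hCV0 : 0 < CV := by linarith
  -- superlevel over the base point
  set ρ3 := min ρ1 r with hρ3
  have hρ30 : 0 < ρ3 := by positivity
  have hge : ∀ p, ‖p - z‖ < ρ3 → f z ≤ f (p + comb e (h0 p)) := by
    intro p hp
    obtain ⟨a, ha, h1⟩ := hSD1 p (hp.trans_le (min_le_left _ _))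
    exact h1.trans ((hh0 p).2 a ha)
  have hlittle : ∀ ε > 0, ∃ ρ > 0, ∀ w, ‖w - z‖ ≤ ρ → ‖h0 (bp f z e w)‖ ≤ ε * ‖w - z‖ := by
    intro ε hε
    obtain ⟨ρ, hρ, h1⟩ := hlit (ε := ε / CV) (by positivity)
    refine ⟨ρ / CV, by positivity, fun w hw => ?_⟩
    have h2 : ‖bp f z e w - z‖ ≤ ρ := by
      refine (hbp w).trans ?_
      calc CV * ‖w - z‖ ≤ CV * (ρ / CV) := by gcongr
        _ = ρ := by field_simp
    refine (h1 _ h2 (bp_co1 h w)).trans ?_
    calc ε / CV * ‖bp f z e w - z‖ ≤ ε / CV * (CV * ‖w - z‖) := by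
          gcongr
          exact hbp w
      _ = ε * ‖w - z‖ := by field_simp
  refine ⟨fun w => h0 (bp f z e w), min (ρ3 / (2 * CV)) (min (ρ2 / CV) (min (r / (2 * CV)) ri)),
    by positivity, ?_, hlittle, ?_, ?_⟩
  · refine hcont.comp bp_continuous.continuousOn ?_
    intro w hw
    rw [mem_closedBall, dist_eq_norm] at hw ⊢
    refine (hbp w).trans ?_
    have h1 : ‖w - z‖ ≤ r / (2 * CV) := hw.trans ((min_le_right _ _).trans
      ((min_le_right _ _).trans (min_le_left _ _)))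
    calc CV * ‖w - z‖ ≤ CV * (r / (2 * CV)) := by gcongr
      _ = r / 2 := by field_simp
      _ ≤ r := by linarith
  · intro w hw hwe
    have w1 : ‖w - z‖ ≤ ρ3 / (2 * CV) := hw.trans (min_le_left _ _)
    have w2 : ‖w - z‖ ≤ ρ2 / CV := hw.trans ((min_le_right _ _).trans (min_le_left _ _))
    have w3 : ‖w - z‖ ≤ r / (2 * CV) := hw.trans ((min_le_right _ _).trans
      ((min_le_right _ _).trans (min_le_left _ _)))
    have w4 : ‖w - z‖ ≤ ri := hw.trans ((min_le_right _ _).trans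
      ((min_le_right _ _).trans (min_le_right _ _)))
    set p := bp f z e w with hp
    have p1 : ‖p - z‖ < ρ3 := by
      refine lt_of_le_of_lt (hbp w) ?_
      calc CV * ‖w - z‖ ≤ CV * (ρ3 / (2 * CV)) := by gcongr
        _ = ρ3 / 2 := by field_simp
        _ < ρ3 := by linarith
    have p2 : ‖p - z‖ ≤ ρ2 := by
      refine (hbp w).trans ?_
      calc CV * ‖w - z‖ ≤ CV * (ρ2 / CV) := by gcongr
        _ = ρ2 := by field_simp
    have p3 : ‖p - z‖ ≤ r / 2 := by
      refine (hbp w).trans ?_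
      calc CV * ‖w - z‖ ≤ CV * (r / (2 * CV)) := by gcongr
        _ = r / 2 := by field_simp
    have hw' : p + comb e (h0 p) = w := by
      have h1 := bp_add (f := f) (z := z) (e := e) w
      rw [hwe] at h1
      exact h1.symm
    refine ⟨?_, ?_⟩
    · have := hge p p1
      rwa [hw'] at this
    · intro hfw
      have h1 : ‖h0 p‖ < r := by
        have := hlit2 p p2 (bp_co1 h w)
        linarith
      have h2 := crit_of_max hf h hcont hh0 (min_le_right ρ1 r) hge p1 h1 (by rw [hw', hfw])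
      rw [hw'] at h2
      exact hiso w w4 h2
  · intro ε hε
    -- comparison with the point of the graph
    obtain ⟨K, hK, hDK⟩ : ∃ K > 0, ∀ x : E, |D2 f z x x| ≤ K * ‖x‖ ^ 2 := by
      refine ⟨‖D2 f z‖ + 1, by positivity, fun x => ?_⟩
      have h1 := (D2 f z).le_opNorm₂ x x
      rw [Real.norm_eq_abs] at h1
      refine h1.trans ?_
      have := mul_nonneg (norm_nonneg x) (norm_nonneg x)
      nlinarith
    set ε1 := min 1 (min (1 / (2 * C)) (ε / (K * C ^ 2 + 4 * C))) with hε1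
    have hε10 : 0 < ε1 := by positivity
    obtain ⟨ρ4, hρ4, hl4⟩ := hlittle ε1 hε10
    obtain ⟨s, hs, htay⟩ := taylor_lip hf hz (ε := 1) one_pos
    refine ⟨min ρ4 (min (s / 2) (ρ3 / (2 * CV))), by positivity, ?_⟩
    intro w hw hj
    have w1 : ‖w - z‖ ≤ ρ4 := hw.trans (min_le_left _ _)
    have w2 : ‖w - z‖ ≤ s / 2 := hw.trans ((min_le_right _ _).trans (min_le_left _ _))
    have w3 : ‖w - z‖ ≤ ρ3 / (2 * CV) := hw.trans ((min_le_right _ _).trans (min_le_right _ _))
    set p := bp f z e w with hp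
    set a := co1 f z e (w - z) with ha
    set R := ‖w - z‖ with hR
    have hR0 : 0 ≤ R := norm_nonneg _
    have p1 : ‖p - z‖ < ρ3 := by
      refine lt_of_le_of_lt (hbp w) ?_
      calc CV * ‖w - z‖ ≤ CV * (ρ3 / (2 * CV)) := by gcongr
        _ = ρ3 / 2 := by field_simp
        _ < ρ3 := by linarith
    have hb : ‖h0 p‖ ≤ ε1 * R := hl4 w w1
    have ha1 : ‖a‖ ≤ ε1 * R := by
      refine (pi_norm_le_iff_of_nonneg (by positivity)).2 fun j => ?_
      have h1 := hj j
      have h2 : |a j| ≤ |h0 p j| := by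
        rw [← sq_le_sq]
        have h3 : a j ^ 2 ≤ a j * h0 p j := by nlinarith
        nlinarith [sq_nonneg (a j - h0 p j)]
      exact h2.trans ((norm_le_pi_norm (h0 p) j).trans hb)
    have hwz : w - z = (p - z) + comb e a := by
      have h1 := bp_add (f := f) (z := z) (e := e) w
      rw [← hp, ← ha] at h1
      rw [sub_add_eq_add_sub, ← h1]
    have hv := bp_co1 h w
    rw [← hp] at hv
    have hCa : ‖comb e a‖ ≤ C * (ε1 * R) := (hcomb a).trans (by gcongr)
    have hCb : ‖comb e (h0 p)‖ ≤ C * (ε1 * R) := (hcomb _).trans (by gcongr)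
    have hCε : C * (ε1 * R) ≤ R / 2 := by
      have h1 : ε1 ≤ 1 / (2 * C) := (min_le_right _ _).trans (min_le_left _ _)
      calc C * (ε1 * R) ≤ C * (1 / (2 * C) * R) := by gcongr
        _ = R / 2 := by field_simp
    have hn1 : ‖(p - z) + comb e a‖ ≤ 2 * R := by rw [← hwz]; linarith
    have hpz : (p - z) + comb e (h0 p) = (w - z) - comb e a + comb e (h0 p) := by
      rw [hwz]; abel
    have hn2 : ‖(p - z) + comb e (h0 p)‖ ≤ 2 * R := by
      rw [hpz]
      refine (norm_add_le _ _).trans ?_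
      have := norm_sub_le (w - z) (comb e a)
      linarith
    have t1 := (abs_le.1 (htay ((p - z) + comb e (h0 p)) ((p - z) + comb e a)
      (hn2.trans (by linarith)) (hn1.trans (by linarith)))).2
    rw [D2_split hf h _ hv, D2_split hf h _ hv] at t1
    have e1 : z + ((p - z) + comb e (h0 p)) = p + comb e (h0 p) := by abel
    have e2 : z + ((p - z) + comb e a) = w := by rw [← hwz]; abel
    have e3 : (p - z) + comb e (h0 p) - ((p - z) + comb e a) = comb e (h0 p) - comb e a := by abel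
    rw [e1, e2, e3] at t1
    have hge' := hge p p1
    have k1 := (abs_le.1 (hDK (comb e a))).1
    have k2 : D2 f z (comb e (h0 p)) (comb e (h0 p)) ≤ 0 := by
      obtain ⟨c', hc', h1⟩ := D2_comb_le h
      refine (h1 _).trans ?_
      have := sq_nonneg ‖h0 p‖
      nlinarith
    have k3 : ‖comb e (h0 p) - comb e a‖ ≤ 2 * (C * (ε1 * R)) :=
      (norm_sub_le _ _).trans (by linarith)
    have k4 : 1 * max ‖(p - z) + comb e (h0 p)‖ ‖(p - z) + comb e a‖ *
        ‖comb e (h0 p) - comb e a‖ ≤ (2 * R) * (2 * (C * (ε1 * R))) := by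
      rw [one_mul]
      have := max_le hn2 hn1
      gcongr
    have k5 : K * ‖comb e a‖ ^ 2 ≤ K * (C * (ε1 * R)) ^ 2 := by gcongr
    have k6 : (K * C ^ 2 + 4 * C) * ε1 ≤ ε := by
      have h1 : ε1 ≤ ε / (K * C ^ 2 + 4 * C) := (min_le_right _ _).trans (min_le_right _ _)
      calc (K * C ^ 2 + 4 * C) * ε1 ≤ (K * C ^ 2 + 4 * C) * (ε / (K * C ^ 2 + 4 * C)) := by
            gcongr
        _ = ε := by field_simp
    have k7 : ε1 ≤ 1 := min_le_left _ _
    have k8 : K * (C * (ε1 * R)) ^ 2 + (2 * R) * (2 * (C * (ε1 * R))) ≤ ε * R ^ 2 := by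
      have h1 : K * (C * (ε1 * R)) ^ 2 = (K * C ^ 2) * (ε1 * ε1) * R ^ 2 := by ring
      have h2 : (2 * R) * (2 * (C * (ε1 * R))) = (4 * C) * ε1 * R ^ 2 := by ring
      have h3 : (K * C ^ 2) * (ε1 * ε1) ≤ (K * C ^ 2) * ε1 := by
        have : ε1 * ε1 ≤ ε1 := by nlinarith
        exact mul_le_mul_of_nonneg_left this (by positivity)
      rw [h1, h2, ← add_mul]
      refine mul_le_mul_of_nonneg_right ?_ (sq_nonneg R)
      nlinarith
    have k9 : 0 ≤ K * (C * (ε1 * R)) ^ 2 := by positivity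
    linarith

end Pool.Agent.H10.TU
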