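import Pool.Agent.H10.TU.Lev1c

/-!
# Level `m`: geometry of the walls on `Fin m → E`
-/

set_option autoImplicit false

open Filter Topology Metric

namespace Pool.Agent.H10.TU

variable {E : Type*} [NormedAddCommGroup E] [NormedSpace ℝ E]

/-- the coordinates along `e` as a linear map -/
noncomputable def coL (f : E → ℝ) (z : E) {d : ℕ} (e : Fin d → E) : E →ₗ[ℝ] (Fin d → ℝ) where
  toFun := co1 f z e
  map_add' := co1_add
  map_smul' := co1_smul

theorem coL_apply (f : E → ℝ) (z : E) {d : ℕ} (e : Fin d → E) (v : E) :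
    coL f z e v = co1 f z e v := rfl

/-- The level one object: the walls `co_j (w - z) - hh_j w`. -/
structure L1 (f : E → ℝ) (z : E) {d : ℕ} (co : E →ₗ[ℝ] (Fin d → ℝ)) (hh : E → Fin d → ℝ)
    (ρ₀ : ℝ) : Prop where
  pos : 0 < ρ₀
  cont : ContinuousOn hh (closedBall z ρ₀)
  little : ∀ ε > 0, ∃ ρ > 0, ∀ w, ‖w - z‖ ≤ ρ → ‖hh w‖ ≤ ε * ‖w - z‖
  ge : ∀ w, ‖w - z‖ ≤ ρ₀ → co (w - z) = hh w → f z ≤ f w ∧ (f w = f z → w = z)
  mixed : ∀ ε > 0, ∃ ρ > 0, ∀ w, ‖w - z‖ ≤ ρ →
    (∀ j, co (w - z) j * (co (w - z) j - hh w j) ≤ 0) → f z - ε * ‖w - z‖ ^ 2 ≤ f w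

theorem level_one' [FiniteDimensional ℝ E] {f : E → ℝ} {z : E} {d : ℕ} {e : Fin d → E}
    (hf : ContDiff ℝ 2 f) (hz : fderiv ℝ f z = 0)
    (hiso : ∃ r > 0, ∀ y, ‖y - z‖ ≤ r → fderiv ℝ f y = 0 → y = z)
    (h : NegFam f z e) (hSD : SDe f z e) : ∃ hh ρ₀, L1 f z (coL f z e) hh ρ₀ := by
  obtain ⟨hh, ρ₀, h1, h2, h3, h4, h5⟩ := level_one hf hz hiso h hSD
  exact ⟨hh, ρ₀, h1, h2, h3, h4, h5⟩

/-- smaller radius -/
theorem L1.mono {f : E → ℝ} {z : E} {d : ℕ} {co : E →ₗ[ℝ] (Fin d → ℝ)} {hh : E → Fin d → ℝ}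
    {ρ₀ ρ : ℝ} (h : L1 f z co hh ρ₀) (hρ : 0 < ρ) (hle : ρ ≤ ρ₀) : L1 f z co hh ρ where
  pos := hρ
  cont := h.cont.mono (closedBall_subset_closedBall hle)
  little := h.little
  ge := fun w hw => h.ge w (hw.trans hle)
  mixed := h.mixed

/-- uniform gain on the graph away from `z` -/
theorem L1.gain [FiniteDimensional ℝ E] {f : E → ℝ} {z : E} {d : ℕ}
    {co : E →ₗ[ℝ] (Fin d → ℝ)} {hh : E → Fin d → ℝ} {ρ₀ : ℝ} (h : L1 f z co hh ρ₀)
    (hf : Continuous f) {s : ℝ} (hs : 0 < s) :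
    ∃ η > 0, ∀ w, ‖w - z‖ ≤ ρ₀ → s ≤ ‖w - z‖ → co (w - z) = hh w → f z + η ≤ f w := by
  have : ProperSpace E := FiniteDimensional.proper ℝ E
  have hco : Continuous co := co.continuous_of_finiteDimensional
  set K : Set E := {w | w ∈ closedBall z ρ₀ ∧ co (w - z) = hh w} ∩ {w | s ≤ ‖w - z‖} with hK
  have hKc : IsCompact K := by
    have h1 : IsClosed {w | w ∈ closedBall z ρ₀ ∧ co (w - z) = hh w} := by
      have h2 : {w | w ∈ closedBall z ρ₀ ∧ co (w - z) = hh w} =
          closedBall z ρ₀ ∩ (fun w => co (w - z) - hh w) ⁻¹' {0} := by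
        ext w
        simp [sub_eq_zero]
      rw [h2]
      refine ContinuousOn.preimage_isClosed_of_isClosed ?_ isClosed_closedBall isClosed_singleton
      exact (hco.comp (continuous_id.sub continuous_const)).continuousOn.sub h.cont
    have h3 : IsClosed {w : E | s ≤ ‖w - z‖} :=
      isClosed_le continuous_const (continuous_norm.comp (continuous_id.sub continuous_const))
    refine (isCompact_closedBall z ρ₀).of_isClosed_subset (h1.inter h3) ?_
    intro w hw
    exact hw.1.1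
  rcases K.eq_empty_or_nonempty with he | hne
  · refine ⟨1, one_pos, fun w hw hs' hw' => ?_⟩
    exfalso
    have : w ∈ K := ⟨⟨by rwa [mem_closedBall, dist_eq_norm], hw'⟩, hs'⟩
    rw [he] at this
    exact this
  · obtain ⟨w0, hw0, hmin⟩ := hKc.exists_isMinOn hne hf.continuousOn
    have h1 := h.ge w0 (by simpa [dist_eq_norm] using hw0.1.1) hw0.1.2
    have h2 : f z < f w0 := by
      refine lt_of_le_of_ne h1.1 fun h3 => ?_
      have h4 := h1.2 h3.symm
      have h5 : s ≤ ‖w0 - z‖ := hw0.2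
      rw [h4, sub_self, norm_zero] at h5
      linarith
    refine ⟨f w0 - f z, by linarith, fun w hw hs' hw' => ?_⟩
    have h3 : f w0 ≤ f w := hmin ⟨⟨by rwa [mem_closedBall, dist_eq_norm], hw'⟩, hs'⟩
    linarith

section coupling

variable {n m : ℕ} [NeZero m]

/-- the coupling of the chunks -/
def cpl (X Y : E →ₗ[ℝ] (Fin n → ℝ)) (w : Fin m → E) : ℝ :=
  ∑ i, ∑ a, Y (w i) a * (X (w i) a - X (w (i - 1)) a)

/-- the function on `Fin m → E` -/
def Amf (f : E → ℝ) (X Y : E →ₗ[ℝ] (Fin n → ℝ)) (w : Fin m → E) : ℝ :=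
  ∑ i, f (w i) + cpl X Y w

theorem sum_shift (g : Fin m → ℝ) : ∑ i, g (i - 1) = ∑ i, g i :=
  Fintype.sum_equiv (Equiv.subRight (1 : Fin m)) _ _ (fun i => rfl)

/-- the coupling when `X` is constant up to one jump -/
theorem cpl_eq (X Y : E →ₗ[ℝ] (Fin n → ℝ)) (w : Fin m → E) (t : ℝ) (k : Fin m) (hk : k ≠ 0)
    (a0 : Fin n) (h : ∀ i, i ≠ 0 → ∀ a, X (w i) a - X (w (i - 1)) a =
      if i = k ∧ a = a0 then t else 0) :
    cpl X Y w = t * (Y (w k) a0 - Y (w 0) a0) := by
  have h0 : ∀ a, X (w 0) a - X (w (0 - 1)) a = if a = a0 then -t else 0 := by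
    intro a
    have h1 : ∑ i, (X (w i) a - X (w (i - 1)) a) = 0 := by
      rw [Finset.sum_sub_distrib, sum_shift (fun i => X (w i) a), sub_self]
    rw [← Finset.add_sum_erase _ _ (Finset.mem_univ (0 : Fin m))] at h1
    have h2 : ∑ i ∈ Finset.univ.erase (0 : Fin m), (X (w i) a - X (w (i - 1)) a) =
        ∑ i ∈ Finset.univ.erase (0 : Fin m), (if i = k ∧ a = a0 then t else 0) := by
      refine Finset.sum_congr rfl fun i hi => h i (Finset.ne_of_mem_erase hi) a
    rw [h2] at h1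
    by_cases ha : a = a0
    · simp only [ha, and_true] at h1 ⊢
      rw [Finset.sum_ite_eq' (Finset.univ.erase (0 : Fin m)) k] at h1
      rw [if_pos (Finset.mem_erase.2 ⟨hk, Finset.mem_univ k⟩)] at h1
      simp only [if_true]
      linarith
    · simp only [ha, and_false, if_false, Finset.sum_const_zero, add_zero] at h1 ⊢
      exact h1
  unfold cpl
  have h3 : ∀ i, ∑ a, Y (w i) a * (X (w i) a - X (w (i - 1)) a) =
      (if i = k then t * Y (w k) a0 else 0) + (if i = 0 then - t * Y (w 0) a0 else 0) := by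
    intro i
    by_cases hi : i = 0
    · subst hi
      simp only [h0, if_neg (Ne.symm hk), if_true, zero_add]
      simp only [mul_ite, mul_zero]
      rw [Finset.sum_ite_eq' Finset.univ a0]
      simp
      ring
    · simp only [h i hi, if_neg hi, add_zero]
      by_cases hik : i = k
      · subst hik
        simp only [true_and, if_true, mul_ite, mul_zero]
        rw [Finset.sum_ite_eq' Finset.univ a0]
        simp
        ring
      · simp [hik]
  simp only [h3, Finset.sum_add_distrib]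
  rw [Finset.sum_ite_eq' Finset.univ k, Finset.sum_ite_eq' Finset.univ (0 : Fin m)]
  simp
  ring

theorem fin_sub_one_val (i : Fin m) (hi : i ≠ 0) : ((i - 1 : Fin m) : ℕ) = (i : ℕ) - 1 := by
  have h1 : 0 < (i : ℕ) := Nat.pos_of_ne_zero fun h => hi (Fin.ext h)
  have hm : 1 < m := by have := i.isLt; omega
  have h2 : ((1 : Fin m) : ℕ) = 1 := by rw [Fin.val_one']; exact Nat.mod_eq_of_lt hm
  rw [Fin.sub_val_of_le]
  · rw [h2]
  · rw [Fin.le_def, h2]; exact h1

/-- the positions when there is one jump -/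
theorem pos_eq (X : E →ₗ[ℝ] (Fin n → ℝ)) (w : Fin m → E) (t : ℝ) (k : Fin m) (hk : k ≠ 0)
    (a0 : Fin n) (h : ∀ i, i ≠ 0 → ∀ a, X (w i) a - X (w (i - 1)) a =
      if i = k ∧ a = a0 then t else 0) (i : Fin m) :
    X (w i) a0 = X (w 0) a0 + if k ≤ i then t else 0 := by
  obtain ⟨v, hv⟩ := i
  induction v with
  | zero =>
    have h1 : ¬ k ≤ (⟨0, hv⟩ : Fin m) := by
      intro h2
      rw [Fin.le_def] at h2
      exact hk (Fin.ext (Nat.le_zero.1 h2))
    rw [if_neg h1, add_zero]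
    rfl
  | succ v ih =>
    have h1 : (⟨v + 1, hv⟩ : Fin m) ≠ 0 := by
      intro h2
      have := congrArg Fin.val h2
      simp at this
    have h2 : (⟨v + 1, hv⟩ : Fin m) - 1 = ⟨v, by omega⟩ := by
      apply Fin.ext
      rw [fin_sub_one_val _ h1]
      rfl
    have h3 := h _ h1 a0
    rw [h2] at h3
    have h4 := ih (by omega)
    have h5 : X (w ⟨v + 1, hv⟩) a0 = X (w ⟨v, by omega⟩) a0 +
        (if (⟨v + 1, hv⟩ : Fin m) = k then t else 0) := by
      simp only [and_true] at h3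
      linarith
    rw [h5, h4, add_assoc]
    congr 1
    by_cases hkv : k ≤ (⟨v, by omega⟩ : Fin m)
    · have h6 : (⟨v + 1, hv⟩ : Fin m) ≠ k := by
        intro h7
        rw [← h7, Fin.le_def] at hkv
        simp at hkv
      have h7 : k ≤ (⟨v + 1, hv⟩ : Fin m) := by
        rw [Fin.le_def] at hkv ⊢
        simp only at hkv ⊢
        omega
      rw [if_pos hkv, if_neg h6, if_pos h7, add_zero]
    · rw [if_neg hkv, zero_add]
      by_cases h6 : (⟨v + 1, hv⟩ : Fin m) = k
      · rw [if_pos h6, if_pos (le_of_eq h6.symm)]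
      · have h7 : ¬ k ≤ (⟨v + 1, hv⟩ : Fin m) := by
          intro h8
          rw [Fin.le_def] at h8 hkv
          simp only at h8 hkv
          apply h6
          apply Fin.ext
          simp only
          omega
        rw [if_neg h6, if_neg h7]

end coupling

end Pool.Agent.H10.TU
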