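import Pool.Agent.H21.TU.HomS
import Pool.Agent.H77.TU.Lists

/-!
# Simultaneous change of the walls
-/

set_option autoImplicit false

namespace Pool.Agent.H10.TU

open Filter Topology
open Pool.Agent.H21.TU

variable {ι : Type*} [Fintype ι] [DecidableEq ι]

/-- Change of several walls one by one (`P` is the list of the pairs (old wall, new wall)). -/
theorem Phi_pairs (F : Type*) [Field F] {z : ι → ℝ} {r1 r2 ρ : ℝ} (hr : 0 < r1 ∧ r1 < r2)
    (P : List (((ι → ℝ) → ℝ) × ((ι → ℝ) → ℝ))) (hD : Fintype.card ι = P.length)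
    (hc : ∀ p ∈ P, ContinuousOn p.1 (Metric.closedBall z r2) ∧
      ContinuousOn p.2 (Metric.closedBall z r2))
    (h : ∀ y ∈ Metric.closedBall z r2, r1 ≤ ‖y - z‖ →
      (∀ p ∈ P, min (p.1 y) (p.2 y) ≤ 0 ∧ 0 ≤ max (p.1 y) (p.2 y)) → False)
    (h1 : r1 < ρ) (h2 : ρ < r2) :
    ∀ᶠ M : ℕ in atTop,
      Phi (F := F) (blf M z ρ) 0 (fun _ => 1) ((P.map Prod.fst).map (gr M)) =
        Phi (F := F) (blf M z ρ) 0 (fun _ => 1) ((P.map Prod.snd).map (gr M)) := by
  have h3 := Pool.Agent.H77.TU.Phi_pairs F (z := z) hr.1 h1 h2 P [] []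
    (by simp only [List.length_nil]; omega) hc
    (fun G hG => absurd hG (by simp)) (fun y hy hy1 _ hP => h y hy hy1 hP)
  simpa using h3

/-- independent linear walls through `z` -/
theorem Phi_lin_ne (F : Type*) [Field F] (l : List ((ι → ℝ) →ₗ[ℝ] ℝ))
    (hl : l.length = Fintype.card ι) (h : ∀ v, (∀ φ ∈ l, φ v = 0) → v = 0) (z : ι → ℝ) {ρ : ℝ}
    (hρ : 0 < ρ) :
    ∀ᶠ M : ℕ in atTop, Phi (F := F) (blf M z ρ) 0 (fun _ => 1)
      ((l.map fun φ y => φ (y - z)).map (gr M)) ≠ 0 := by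
  have e0 : ∀ (φ : (ι → ℝ) →ₗ[ℝ] ℝ) (v : ι → ℝ), ∑ i, φ (Pi.single i 1) * v i = φ v := by
    intro φ v
    conv_rhs => rw [pi_eq_sum_univ' v]
    rw [map_sum]
    refine Finset.sum_congr rfl fun i _ => ?_
    rw [map_smul, smul_eq_mul, mul_comm]
  have h3 := Pool.Agent.H77.TU.Phi_lfs F (l.map fun φ i => φ (Pi.single i 1))
    (by rw [List.length_map, hl])
    (fun v hv => h v fun φ hφ => by
      have h4 := hv _ (List.mem_map.2 ⟨φ, hφ, rfl⟩)
      rw [e0] at h4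
      exact h4) z hρ
  have e1 : ((l.map fun (φ : (ι → ℝ) →ₗ[ℝ] ℝ) i => φ (Pi.single i 1)).map fun c =>
      Pool.Agent.H77.TU.lf c z) = l.map fun φ y => φ (y - z) := by
    rw [List.map_map]
    refine List.map_congr_left fun φ _ => ?_
    funext y
    show ∑ i, φ (Pi.single i 1) * (y i - z i) = φ (y - z)
    exact e0 φ (y - z)
  rwa [e1] at h3

end Pool.Agent.H10.TU
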