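import Pool.Agent.H10.TU.LvmG
import Pool.Agent.H10.TU.LvmP
import Pool.Agent.H21.TU.Hom

/-!
# Level `m`: assembly of the geometric data
-/

set_option autoImplicit false

open Filter Topology Metric

namespace Pool.Agent.H10.TU

open Pool.Agent.H47.ST (HR Lv lam ps rl PerL)
open Pool.Agent.H21.TU

section walls

variable {E : Type*} [NormedAddCommGroup E] [NormedSpace ℝ E] {ι : Type*} {m n d : ℕ} [NeZero m]

/-- the linear wall `co_j` of the chunk `i` -/
def cl (ck : (ι → ℝ) ≃ₗ[ℝ] (Fin m → E)) (co : E →ₗ[ℝ] (Fin d → ℝ)) (p : Fin m × Fin d) :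
    (ι → ℝ) →ₗ[ℝ] ℝ :=
  LinearMap.proj p.2 ∘ₗ co ∘ₗ LinearMap.proj p.1 ∘ₗ ck.toLinearMap

/-- the linear wall `(X_i - X_{i-1})_a` -/
def xl (ck : (ι → ℝ) ≃ₗ[ℝ] (Fin m → E)) (X : E →ₗ[ℝ] (Fin n → ℝ)) (p : Fin m × Fin n) :
    (ι → ℝ) →ₗ[ℝ] ℝ :=
  LinearMap.proj p.2 ∘ₗ X ∘ₗ LinearMap.proj p.1 ∘ₗ ck.toLinearMap -
    LinearMap.proj p.2 ∘ₗ X ∘ₗ LinearMap.proj (p.1 - 1) ∘ₗ ck.toLinearMap

/-- the wall `co_j - hh_j` of the chunk `i` -/
def cw (ck : (ι → ℝ) ≃ₗ[ℝ] (Fin m → E)) (co : E →ₗ[ℝ] (Fin d → ℝ)) (hh : E → Fin d → ℝ) (z : E)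
    (p : Fin m × Fin d) : (ι → ℝ) → ℝ :=
  fun y => co (ck y p.1 - z) p.2 - hh (ck y p.1) p.2

/-- the index set of the walls `(X_i - X_{i-1})_a` without the moved one -/
noncomputable def ixl (m n : ℕ) [NeZero m] (kk : Fin m) (a0 : Fin n) : List (Fin m × Fin n) :=
  (Finset.univ.filter fun p : Fin m × Fin n => p.1 ≠ 0 ∧ ¬ (p.1 = kk ∧ p.2 = a0)).toList

theorem mem_ixl {kk : Fin m} {a0 : Fin n} {p : Fin m × Fin n} :
    p ∈ ixl m n kk a0 ↔ p.1 ≠ 0 ∧ ¬ (p.1 = kk ∧ p.2 = a0) := by
  unfold ixl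
  rw [Finset.mem_toList, Finset.mem_filter]
  exact ⟨fun h => h.2, fun h => ⟨Finset.mem_univ _, h⟩⟩

theorem ixl_length {kk : Fin m} (hkk : kk ≠ 0) (a0 : Fin n) :
    (ixl m n kk a0).length + 1 = (m - 1) * n := by
  unfold ixl
  rw [Finset.length_toList]
  have h1 : (Finset.univ.filter fun p : Fin m × Fin n => p.1 ≠ 0 ∧ ¬ (p.1 = kk ∧ p.2 = a0)) =
      (({0}ᶜ : Finset (Fin m)) ×ˢ (Finset.univ : Finset (Fin n))).erase (kk, a0) := by
    ext p
    simp only [Finset.mem_filter, Finset.mem_univ, true_and, Finset.mem_erase, Finset.mem_product,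
      Finset.mem_compl, Finset.mem_singleton, and_true, ne_eq, Prod.ext_iff]
    tauto
  rw [h1, Finset.card_erase_add_one, Finset.card_product, Finset.card_compl,
    Finset.card_singleton, Finset.card_univ, Fintype.card_fin, Fintype.card_fin]
  simp [hkk]

theorem cl_apply (ck : (ι → ℝ) ≃ₗ[ℝ] (Fin m → E)) (co : E →ₗ[ℝ] (Fin d → ℝ))
    (p : Fin m × Fin d) (y : ι → ℝ) : cl ck co p y = co (ck y p.1) p.2 := rfl

theorem xl_apply (ck : (ι → ℝ) ≃ₗ[ℝ] (Fin m → E)) (X : E →ₗ[ℝ] (Fin n → ℝ))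
    (p : Fin m × Fin n) (y : ι → ℝ) :
    xl ck X p y = X (ck y p.1) p.2 - X (ck y (p.1 - 1)) p.2 := rfl

theorem cl_sub (ck : (ι → ℝ) ≃ₗ[ℝ] (Fin m → E)) (co : E →ₗ[ℝ] (Fin d → ℝ)) {z : E}
    {zz : ι → ℝ} (hzz : ck zz = fun _ => z) (p : Fin m × Fin d) (y : ι → ℝ) :
    cl ck co p (y - zz) = co (ck y p.1 - z) p.2 := by
  rw [cl_apply, map_sub, hzz, Pi.sub_apply]

theorem xl_sub (ck : (ι → ℝ) ≃ₗ[ℝ] (Fin m → E)) (X : E →ₗ[ℝ] (Fin n → ℝ)) {z : E}
    {zz : ι → ℝ} (hzz : ck zz = fun _ => z) (p : Fin m × Fin n) (y : ι → ℝ) :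
    xl ck X p (y - zz) = xl ck X p y := by
  rw [map_sub, xl_apply ck X p zz, hzz, sub_self, sub_zero]

theorem ck_ball [Fintype ι] (ck : (ι → ℝ) ≃ₗ[ℝ] (Fin m → E)) (hck : ∀ v, ‖ck v‖ = ‖v‖) {z : E}
    {zz : ι → ℝ} (hzz : ck zz = fun _ => z) {y : ι → ℝ} {r : ℝ} (h : ‖y - zz‖ ≤ r) (i : Fin m) :
    ‖ck y i - z‖ ≤ r := by
  have h1 : ‖ck y - ck zz‖ ≤ r := by rw [← map_sub, hck]; exact h
  rw [hzz] at h1
  exact (norm_le_pi_norm (ck y - fun _ => z) i).trans h1

theorem ck_far [Fintype ι] (ck : (ι → ℝ) ≃ₗ[ℝ] (Fin m → E)) (hck : ∀ v, ‖ck v‖ = ‖v‖) {z : E}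
    {zz : ι → ℝ} (hzz : ck zz = fun _ => z) {y : ι → ℝ} {r : ℝ} (h : r ≤ ‖y - zz‖) :
    ∃ i : Fin m, r ≤ ‖ck y i - z‖ := by
  by_contra hcon
  push Not at hcon
  have h1 : ‖ck y - ck zz‖ < r := by
    rw [hzz]
    have h0 : 0 < r := lt_of_le_of_lt (norm_nonneg _) (hcon 0)
    exact (pi_norm_lt_iff h0).2 hcon
  rw [← map_sub, hck] at h1
  linarith

end walls

/-- bounded from above on a closed ball -/
theorem bdd_ball {ι : Type*} [Fintype ι] {q : (ι → ℝ) → ℝ} (hq : Continuous q) (z : ι → ℝ)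
    (r : ℝ) : ∃ R : ℝ, ∀ y ∈ closedBall z r, q y < R := by
  obtain ⟨C, hC⟩ := (isCompact_closedBall z r).exists_bound_of_continuousOn hq.continuousOn
  exact ⟨C + 1, fun y hy => by
    have := (le_abs_self _).trans (hC y hy)
    linarith⟩

/-- **Level `m`**: existence of classes. -/
theorem low_abs {E : Type*} [NormedAddCommGroup E] [NormedSpace ℝ E] [FiniteDimensional ℝ E]
    {f : E → ℝ} {z : E} {d : ℕ} {co : E →ₗ[ℝ] (Fin d → ℝ)} {hh : E → Fin d → ℝ} {ρ₀ : ℝ}
    (h : L1 f z co hh ρ₀) (hf : Continuous f) {n : ℕ} (X Y : E →ₗ[ℝ] (Fin n → ℝ))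
    (a0 : Fin n) :
    ∃ k0 > 0, ∀ k m : ℕ, k0 ≤ k → m = 2 * k → ∀ [NeZero m] {ι : Type} [Fintype ι] [DecidableEq ι]
      (ck : (ι → ℝ) ≃ₗ[ℝ] (Fin m → E)), (∀ v, ‖ck v‖ = ‖v‖) → ∀ A : (ι → ℝ) → ℝ,
      (∀ y, A y = Amf f X Y (ck y)) → ∀ zz, (ck zz = fun _ => z) →
      ∀ Kl : List ((ι → ℝ) →ₗ[ℝ] ℝ), Kl.length + (m * d + (m - 1) * n) = Fintype.card ι →
      ∀ c > 0, ∀ r > 0, (∀ v, ‖v‖ ≤ r → (∀ φ ∈ Kl, φ v = 0) →
        A (zz + v) ≤ A zz - c * ‖v‖ ^ 2) →
      ∀ (L : AddSubgroup (ι → ℤ)) (q Q : (ι → ℝ) → ℝ), Continuous q → Continuous Q →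
      PerL L q → PerL L Q →
      ∃ ε > 0, ∃ R₀ : ℝ, ∀ (F : Type) [Field F] (g : (ι → ℝ) → ℝ), Continuous g → PerL L g →
        (∀ y, |g y - A y| ≤ ε) → ∀ R ≥ R₀, ∀ V : Finset ℝ,
        ∃ lo hi : ℝ, lo < hi ∧ lo ∉ V ∧ hi ∉ V ∧ ∀ᶠ M : ℕ in atTop,
          ¬ HR F (lam L M) (Lv q Q g R R hi M) (Lv q Q g R R lo M)
            (m * d + (m - 1) * n - 1) 0 := by
  set ρ : ℝ := min ρ₀ (1 / 8) with hρdef
  have hρ0 := h.pos
  have hρ : 0 < ρ := by positivity
  have hρ4 : ρ < 1 / 4 := lt_of_le_of_lt (min_le_right _ _) (by norm_num)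
  have h' := h.mono hρ (min_le_left _ _)
  obtain ⟨η, hη, r0, hr0, k0, hk0, hgain⟩ := gain_m h' hf X Y a0
  refine ⟨k0, hk0, ?_⟩
  intro k m hk hm _ ι _ _ ck hck A hA zz hzz Kl hKl c hc r hr hneg L q Q hq hQ hqp hQp
  have hkm : k < m := by omega
  set kk : Fin m := ⟨k, hkm⟩ with hkk
  have hkk0 : kk ≠ 0 := by
    intro h0
    have h1 := congrArg Fin.val h0
    rw [Fin.val_zero] at h1
    simp only [hkk] at h1
    omega
  obtain ⟨ρ3, hρ3, hmix⟩ := mixed_m h' X Y a0 m kk hkk0 hc
  have hgain' := hgain k m hk hm kk rfl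
  set ρ2 : ℝ := min (min ρ3 r) (ρ / 4) with hρ2def
  have hρ2 : 0 < ρ2 := by positivity
  have hρ23 : ρ2 ≤ ρ3 := (min_le_left _ _).trans (min_le_left _ _)
  have hρ2r : ρ2 ≤ r := (min_le_left _ _).trans (min_le_right _ _)
  have hρ2ρ : ρ2 ≤ ρ / 4 := min_le_right _ _
  set κ : ℝ := m * f z with hκ
  have hAz : A zz = κ := by
    rw [hA, hzz]
    unfold Amf
    rw [cpl_eq X Y (fun _ => z) 0 kk hkk0 a0 (fun i _ a => by simp), zero_mul, add_zero,
      Finset.sum_const, Finset.card_univ, Fintype.card_fin, nsmul_eq_mul]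
  -- no common zero
  have hshell : ∀ y, ‖y - zz‖ ≤ ρ2 →
      (∀ i j, co (ck y i - z) j * (co (ck y i - z) j - hh (ck y i) j) ≤ 0) →
      (∀ i, i ≠ 0 → ∀ a, xl ck X (i, a) y = 0) → (∀ φ ∈ Kl, φ (y - zz) = 0) → y = zz := by
    intro y hy h1 h2 h3
    have h4 := hmix (ck y) (fun i => (ck_ball ck hck hzz hy i).trans hρ23) h1 h2 (by
      have h5 := hneg (y - zz) (hy.trans hρ2r) h3
      rw [add_sub_cancel, hAz, hA] at h5
      have h6 : ‖ck y - fun _ => z‖ = ‖y - zz‖ := by rw [← hzz, ← map_sub, hck]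
      rw [h6]
      exact h5)
    exact ck.injective (by rw [h4, hzz])
  set W1 : List ((ι → ℝ) → ℝ) := (Finset.univ : Finset (Fin m × Fin d)).toList.map
    (cw ck co hh z) with hW1
  set W2 : List ((ι → ℝ) → ℝ) := (ixl m n kk a0).map (fun p y => xl ck X p y) with hW2
  set Kw : List ((ι → ℝ) → ℝ) := Kl.map (fun φ y => φ (y - zz)) with hKw
  set φ : (ι → ℝ) → ℝ := fun y => xl ck X (kk, a0) y with hφ
  have hb : W1.length + W2.length = m * d + (m - 1) * n - 1 := by
    have h1 := ixl_length (m := m) (n := n) hkk0 a0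
    rw [hW1, hW2, List.length_map, List.length_map, Finset.length_toList, Finset.card_univ,
      Fintype.card_prod, Fintype.card_fin, Fintype.card_fin]
    omega
  have hmn : 1 ≤ (m - 1) * n := by
    have h1 := ixl_length (m := m) (n := n) hkk0 a0
    omega
  have hD : Fintype.card ι = (m * d + (m - 1) * n - 1) + 1 + Kw.length := by
    rw [hKw, List.length_map]
    omega
  -- the walls are continuous
  have hckc : Continuous ck := ck.toLinearMap.continuous_of_finiteDimensional
  have hckic : ∀ i, Continuous fun y => ck y i := fun i => (continuous_apply i).comp hckc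
  have hcoc : Continuous co := co.continuous_of_finiteDimensional
  have hlinc : ∀ φ : (ι → ℝ) →ₗ[ℝ] ℝ, Continuous φ := fun φ => φ.continuous_of_finiteDimensional
  have hcwc : ∀ p, ContinuousOn (cw ck co hh z p) (closedBall zz ρ) := by
    intro p
    unfold cw
    refine ContinuousOn.sub ?_ ?_
    · exact ((continuous_apply p.2).comp (hcoc.comp ((hckic p.1).sub continuous_const))).continuousOn
    · refine (continuous_apply p.2).comp_continuousOn (h'.cont.comp (hckic p.1).continuousOn ?_)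
      intro y hy
      rw [mem_closedBall, dist_eq_norm] at hy ⊢
      exact ck_ball ck hck hzz hy p.1
  -- nonvanishing of the functional
  have hphi : ∀ (F : Type) [Field F], ∀ᶠ M : ℕ in atTop,
      Phi (F := F) (blf M zz (3 * ρ2 / 4)) 0 (fun _ => 1)
        ((W1 ++ φ :: W2 ++ Kw).map (gr M)) ≠ 0 := by
    intro F _
    set l : List ((ι → ℝ) →ₗ[ℝ] ℝ) := (Finset.univ : Finset (Fin m × Fin d)).toList.map
      (cl ck co) ++ xl ck X (kk, a0) :: (ixl m n kk a0).map (xl ck X) ++ Kl with hl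
    set P : List (((ι → ℝ) → ℝ) × ((ι → ℝ) → ℝ)) :=
      ((Finset.univ : Finset (Fin m × Fin d)).toList.map
        (fun p => (cw ck co hh z p, fun y => cl ck co p (y - zz)))) ++
      (φ, fun y => xl ck X (kk, a0) (y - zz)) :: ((ixl m n kk a0).map
        (fun p => ((fun y => xl ck X p y), (fun y => xl ck X p (y - zz))))) ++
      Kl.map (fun φ => ((fun y => φ (y - zz)), (fun y => φ (y - zz)))) with hP
    have hP1 : P.map Prod.fst = W1 ++ φ :: W2 ++ Kw := by
      rw [hP, hW1, hW2, hKw]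
      simp only [List.map_append, List.map_cons, List.map_map]
      rfl
    have hP2 : P.map Prod.snd = l.map fun φ y => φ (y - zz) := by
      rw [hP, hl]
      simp only [List.map_append, List.map_cons, List.map_map]
      rfl
    have hPl : P.length = Fintype.card ι := by
      rw [← List.length_map Prod.fst, hP1, hD]
      simp only [List.length_append, List.length_cons]
      omega
    have hll : l.length = Fintype.card ι := by
      rw [← hPl, ← List.length_map Prod.snd, hP2, List.length_map]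
    have hmem : ∀ y, (∀ p ∈ P, min (p.1 y) (p.2 y) ≤ 0 ∧ 0 ≤ max (p.1 y) (p.2 y)) →
        (∀ i j, co (ck y i - z) j * (co (ck y i - z) j - hh (ck y i) j) ≤ 0) ∧
        (∀ i, i ≠ 0 → ∀ a, xl ck X (i, a) y = 0) ∧ (∀ φ ∈ Kl, φ (y - zz) = 0) := by
      intro y hy
      refine ⟨fun i j => ?_, fun i hi a => ?_, fun ψ hψ => ?_⟩
      · have h1 := hy (cw ck co hh z (i, j), fun y => cl ck co (i, j) (y - zz)) (by
          rw [hP]
          refine List.mem_append_left _ (List.mem_append_left _ (List.mem_map.2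
            ⟨(i, j), Finset.mem_toList.2 (Finset.mem_univ _), rfl⟩)))
        simp only [cw, cl_sub ck co hzz] at h1
        rcases min_le_iff.1 h1.1 with h2 | h2 <;> rcases le_max_iff.1 h1.2 with h3 | h3
        · have : co (ck y i - z) j - hh (ck y i) j = 0 := le_antisymm h2 h3
          rw [this, mul_zero]
        · exact mul_nonpos_of_nonneg_of_nonpos h3 h2
        · exact mul_nonpos_of_nonpos_of_nonneg h2 h3
        · have : co (ck y i - z) j = 0 := le_antisymm h2 h3
          rw [this, zero_mul]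
      · by_cases hia : i = kk ∧ a = a0
        · have h1 := hy (φ, fun y => xl ck X (kk, a0) (y - zz)) (by
            rw [hP]
            exact List.mem_append_left _ (List.mem_append_right _ List.mem_cons_self))
          simp only [hφ, xl_sub ck X hzz, min_self, max_self] at h1
          rw [hia.1, hia.2]
          exact le_antisymm h1.1 h1.2
        · have h1 := hy ((fun y => xl ck X (i, a) y), (fun y => xl ck X (i, a) (y - zz))) (by
            rw [hP]
            refine List.mem_append_left _ (List.mem_append_right _ (List.mem_cons_of_mem _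
              (List.mem_map.2 ⟨(i, a), mem_ixl.2 ⟨hi, hia⟩, rfl⟩))))
          simp only [xl_sub ck X hzz, min_self, max_self] at h1
          exact le_antisymm h1.1 h1.2
      · have h1 := hy ((fun y => ψ (y - zz)), (fun y => ψ (y - zz))) (by
          rw [hP]
          exact List.mem_append_right _ (List.mem_map.2 ⟨ψ, hψ, rfl⟩))
        simp only [min_self, max_self] at h1
        exact le_antisymm h1.1 h1.2
    have h1 := Phi_pairs F (z := zz) (r1 := ρ2 / 2) (r2 := ρ2) (ρ := 3 * ρ2 / 4)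
      ⟨by positivity, by linarith⟩ P hPl.symm (by
        intro p hp
        rw [hP] at hp
        rcases List.mem_append.1 hp with hp | hp
        · rcases List.mem_append.1 hp with hp | hp
          · obtain ⟨p', -, rfl⟩ := List.mem_map.1 hp
            exact ⟨(hcwc p').mono (closedBall_subset_closedBall (by linarith)),
              ((hlinc (cl ck co p')).comp (continuous_id.sub continuous_const)).continuousOn⟩
          · rcases List.mem_cons.1 hp with rfl | hp
            · exact ⟨(hlinc (xl ck X (kk, a0))).continuousOn,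
                ((hlinc (xl ck X (kk, a0))).comp (continuous_id.sub continuous_const)).continuousOn⟩
            · obtain ⟨p', -, rfl⟩ := List.mem_map.1 hp
              exact ⟨(hlinc (xl ck X p')).continuousOn,
                ((hlinc (xl ck X p')).comp (continuous_id.sub continuous_const)).continuousOn⟩
        · obtain ⟨ψ, -, rfl⟩ := List.mem_map.1 hp
          exact ⟨((hlinc ψ).comp (continuous_id.sub continuous_const)).continuousOn,
            ((hlinc ψ).comp (continuous_id.sub continuous_const)).continuousOn⟩)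
      (by
        intro y hy hy2 hy3
        obtain ⟨e1, e2, e3⟩ := hmem y hy3
        have e4 := hshell y (by rwa [mem_closedBall, dist_eq_norm] at hy) e1 e2 e3
        rw [e4, sub_self, norm_zero] at hy2
        linarith) (by linarith) (by linarith)
    have h2 := Phi_lin_ne F l hll (by
      intro v hv
      by_contra hv0
      have hvn : 0 < ‖v‖ := norm_pos_iff.2 hv0
      have hv' : ∀ ψ ∈ l, ψ ((ρ2 / ‖v‖) • v) = 0 := by
        intro ψ hψ
        rw [map_smul, hv ψ hψ, smul_zero]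
      have e4 := hshell (zz + (ρ2 / ‖v‖) • v) (by
        rw [add_sub_cancel_left, norm_smul, norm_div, norm_norm, Real.norm_of_nonneg hρ2.le]
        field_simp
        exact le_refl _)
        (by
          intro i j
          have e5 := hv' (cl ck co (i, j)) (by
            rw [hl]
            exact List.mem_append_left _ (List.mem_append_left _ (List.mem_map.2
              ⟨(i, j), Finset.mem_toList.2 (Finset.mem_univ _), rfl⟩)))
          have e6 := cl_sub ck co hzz (i, j) (zz + (ρ2 / ‖v‖) • v)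
          rw [add_sub_cancel_left, e5] at e6
          simp only at e6
          rw [← e6, zero_mul])
        (by
          intro i hi a
          rw [← xl_sub ck X hzz, add_sub_cancel_left]
          by_cases hia : i = kk ∧ a = a0
          · rw [hia.1, hia.2]
            refine hv' _ ?_
            rw [hl]
            exact List.mem_append_left _ (List.mem_append_right _ List.mem_cons_self)
          · refine hv' _ ?_
            rw [hl]
            exact List.mem_append_left _ (List.mem_append_right _ (List.mem_cons_of_mem _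
              (List.mem_map.2 ⟨(i, a), mem_ixl.2 ⟨hi, hia⟩, rfl⟩))))
        (by
          intro ψ hψ
          rw [add_sub_cancel_left]
          refine hv' _ ?_
          rw [hl]
          exact List.mem_append_right _ hψ)
      have e5 : (ρ2 / ‖v‖) • v = 0 := by
        have := congrArg (fun x => x - zz) e4
        simpa using this
      rcases smul_eq_zero.1 e5 with e6 | e6
      · rcases div_eq_zero_iff.1 e6 with e7 | e7
        · exact hρ2.ne' e7
        · exact hvn.ne' e7
      · exact hv0 e6) zz (ρ := 3 * ρ2 / 4) (by positivity)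
    filter_upwards [h1, h2] with M h3 h4
    rw [hP1, hP2] at h3
    rw [h3]
    exact h4
  obtain ⟨R1, hR1⟩ := bdd_ball hq zz ρ
  obtain ⟨R2, hR2⟩ := bdd_ball hQ.neg zz ρ
  set δ : ℝ := c * ρ2 ^ 2 / 4 with hδ
  have hδ0 : 0 < δ := by positivity
  set ε : ℝ := min (δ / 4) (η / 16) with hε
  have hε0 : 0 < ε := by positivity
  have hεδ : ε ≤ δ / 4 := min_le_left _ _
  have hεη : ε ≤ η / 16 := min_le_right _ _
  refine ⟨ε, hε0, max R1 R2, ?_⟩
  intro F _ g hg hgp hgA R hR V
  obtain ⟨hi, hhi, hhiV⟩ := (Set.Ioo_infinite (show max (κ - δ + ε) (κ - η / 4) < κ - ε by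
    rw [max_lt_iff]; constructor <;> linarith)).exists_notMem_finset V
  obtain ⟨lo, hlo, hloV⟩ := (Set.Ioo_infinite (show κ - η / 2 < κ - η / 4 - ε by
    linarith)).exists_notMem_finset V
  rw [Set.mem_Ioo, max_lt_iff] at hhi
  rw [Set.mem_Ioo] at hlo
  refine ⟨lo, hi, by linarith, hloV, hhiV, ?_⟩
  have hgA' : ∀ y, A y - ε ≤ g y ∧ g y ≤ A y + ε := fun y => by
    have := abs_le.1 (hgA y)
    constructor <;> linarith
  -- the points on the walls
  have hwall : ∀ y ∈ closedBall zz ρ, (∀ G ∈ W1 ++ W2, G y = 0) → ∀ t, 0 ≤ t → t ≤ r0 →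
      φ y = t → (κ - η / 4 ≤ A y) ∧ ((ρ / 2 ≤ ‖y - zz‖) → κ + η / 2 ≤ A y) ∧
      (t = r0 → κ + η / 2 ≤ A y) ∧ (t = 0 → κ ≤ A y) := by
    intro y hy hG t ht0 htr hφt
    rw [mem_closedBall, dist_eq_norm] at hy
    have h1 := hgain' (ck y) (fun i => ck_ball ck hck hzz hy i) (by
      intro i
      funext j
      have h2 := hG (cw ck co hh z (i, j)) (List.mem_append_left _ (List.mem_map.2
        ⟨(i, j), Finset.mem_toList.2 (Finset.mem_univ _), rfl⟩))
      simp only [cw] at h2
      linarith) t ht0 htr (by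
      intro i hi a
      by_cases hia : i = kk ∧ a = a0
      · rw [if_pos hia, hia.1, hia.2]
        exact hφt
      · rw [if_neg hia]
        exact hG (fun y => xl ck X (i, a) y) (List.mem_append_right _ (List.mem_map.2
          ⟨(i, a), mem_ixl.2 ⟨hi, hia⟩, rfl⟩)))
    rw [← hA] at h1
    exact ⟨h1.1, fun hfar => h1.2.1 (ck_far ck hck hzz hfar), h1.2.2.1, h1.2.2.2⟩
  have hG : Geo L q Q g R R zz κ (η / 4) (κ - hi) lo ρ (ρ / 2) ρ2 W1 W2 Kw φ
      (fun y => φ y - r0) := by
    refine ⟨hq, hQ, hg, hqp, hQp, hgp, ⟨by linarith, by linarith, hρ4, hρ2, by linarith⟩,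
      ⟨by linarith, by linarith, by positivity⟩, ?_, ?_, ?_, ?_, ?_, ?_⟩
    · intro G hGm
      have hφc : Continuous φ := hlinc (xl ck X (kk, a0))
      rcases List.mem_cons.1 hGm with rfl | hGm
      · exact hφc.continuousOn
      rcases List.mem_cons.1 hGm with rfl | hGm
      · exact (hφc.sub continuous_const).continuousOn
      rcases List.mem_append.1 hGm with hGm | hGm
      · rcases List.mem_append.1 hGm with hGm | hGm
        · obtain ⟨p, -, rfl⟩ := List.mem_map.1 hGm
          exact hcwc p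
        · obtain ⟨p, -, rfl⟩ := List.mem_map.1 hGm
          exact (hlinc (xl ck X p)).continuousOn
      · obtain ⟨ψ, -, rfl⟩ := List.mem_map.1 hGm
        exact ((hlinc ψ).comp (continuous_id.sub continuous_const)).continuousOn
    · intro y hy
      have h1 := hR1 y hy
      have h2 := hR2 y hy
      have h3 := (le_max_left R1 R2).trans hR
      have h4 := (le_max_right R1 R2).trans hR
      constructor
      · linarith
      · simp only [Pi.neg_apply] at h2
        linarith
    · intro y hy hG hmin hmax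
      have ht0 : 0 ≤ φ y := by
        rcases le_max_iff.1 hmax with h1 | h1
        · exact h1
        · linarith
      have htr : φ y ≤ r0 := by
        rcases min_le_iff.1 hmin with h1 | h1
        · linarith
        · linarith
      obtain ⟨h1, h2, -, -⟩ := hwall y hy hG (φ y) ht0 htr rfl
      refine ⟨by linarith [(hgA' y).1], fun hfar => ?_⟩
      linarith [(hgA' y).1, h2 hfar]
    · intro y hy hG h0
      obtain ⟨-, -, -, h1⟩ := hwall y hy hG 0 le_rfl hr0.le h0
      linarith [(hgA' y).1, h1 rfl]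
    · intro y hy hG h0
      obtain ⟨-, -, h1, -⟩ := hwall y hy hG r0 hr0.le le_rfl (by linarith)
      linarith [(hgA' y).1, h1 rfl]
    · intro y hy hk
      rw [mem_closedBall, dist_eq_norm] at hy
      have h1 := hneg (y - zz) (hy.trans hρ2r) (by
        intro ψ hψ
        exact hk (fun y => ψ (y - zz)) (List.mem_map.2 ⟨ψ, hψ, rfl⟩))
      rw [add_sub_cancel, hAz] at h1
      refine ⟨?_, fun hfar => ?_⟩
      · have h2 : 0 ≤ c * ‖y - zz‖ ^ 2 := by positivity
        linarith [(hgA' y).2]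
      · have h2 : (ρ2 / 2) ^ 2 ≤ ‖y - zz‖ ^ 2 := pow_le_pow_left₀ (by positivity) hfar 2
        have h3 : δ ≤ c * ‖y - zz‖ ^ 2 := by
          rw [hδ]
          nlinarith
        linarith [(hgA' y).2, hhi.1.1]
  have h1 := geo_HR (F := F) hG hb hD (hphi F)
  rw [sub_sub_cancel] at h1
  exact h1

end Pool.Agent.H10.TU
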