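import Pool.Agent.H10.TU.Lvm

/-!
# Level `m`: gain and detection
-/

set_option autoImplicit false

open Filter Topology Metric

namespace Pool.Agent.H10.TU

variable {E : Type*} [NormedAddCommGroup E] [NormedSpace ℝ E]

theorem lin_bd [FiniteDimensional ℝ E] {n : ℕ} (X : E →ₗ[ℝ] (Fin n → ℝ)) :
    ∃ C > 0, ∀ v a, |X v a| ≤ C * ‖v‖ := by
  obtain ⟨C, hC, h⟩ := X.toContinuousLinearMap.bound
  exact ⟨C, hC, fun v a => by
    have := (norm_le_pi_norm (X v) a).trans (h v)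
    rwa [Real.norm_eq_abs] at this⟩

/-- the three estimates on the walls -/
theorem gain_m [FiniteDimensional ℝ E] {f : E → ℝ} {z : E} {d : ℕ}
    {co : E →ₗ[ℝ] (Fin d → ℝ)} {hh : E → Fin d → ℝ} {ρ : ℝ} (h : L1 f z co hh ρ)
    (hf : Continuous f) {n : ℕ} (X Y : E →ₗ[ℝ] (Fin n → ℝ)) (a0 : Fin n) :
    ∃ η > 0, ∃ r0 > 0, ∃ k0 : ℕ, 0 < k0 ∧ ∀ k m : ℕ, k0 ≤ k → m = 2 * k → ∀ [NeZero m]
      (kk : Fin m), (kk : ℕ) = k →
      ∀ w : Fin m → E, (∀ i, ‖w i - z‖ ≤ ρ) → (∀ i, co (w i - z) = hh (w i)) →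
      ∀ t, 0 ≤ t → t ≤ r0 → (∀ i, i ≠ 0 → ∀ a, X (w i) a - X (w (i - 1)) a =
        if i = kk ∧ a = a0 then t else 0) →
      (m * f z - η / 4 ≤ Amf f X Y w) ∧
      ((∃ i, ρ / 2 ≤ ‖w i - z‖) → m * f z + η / 2 ≤ Amf f X Y w) ∧
      (t = r0 → m * f z + η / 2 ≤ Amf f X Y w) ∧ (t = 0 → m * f z ≤ Amf f X Y w) := by
  have hρ := h.pos
  obtain ⟨CX, hCX, hX⟩ := lin_bd X
  obtain ⟨CY, hCY, hY⟩ := lin_bd Y
  obtain ⟨η, hη, hg⟩ := h.gain hf (s := ρ / 2) (by positivity)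
  set r0 : ℝ := η / (8 * CY * ρ) with hr0
  have hr0p : 0 < r0 := by positivity
  obtain ⟨η2, hη2, hg2⟩ := h.gain hf (s := r0 / (2 * CX)) (by positivity)
  refine ⟨η, hη, r0, hr0p, ⌈η / η2⌉₊ + 1, Nat.succ_pos _, ?_⟩
  intro k m hk hm _ kk hkk w hw hco t ht0 htr hX1
  have hk1 : 1 ≤ k := by omega
  have hkk0 : kk ≠ 0 := by
    intro h0
    have h1 : ((0 : Fin m) : ℕ) = 0 := Fin.val_zero _
    rw [h0, h1] at hkk
    omega
  have hkη : η ≤ k * η2 := by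
    have h1 : η / η2 ≤ k := by
      have h2 : ((⌈η / η2⌉₊ + 1 : ℕ) : ℝ) ≤ k := Nat.cast_le.2 hk
      push_cast at h2
      linarith [Nat.le_ceil (η / η2)]
    rwa [div_le_iff₀ hη2] at h1
  have hA : Amf f X Y w = ∑ i, f (w i) + t * (Y (w kk) a0 - Y (w 0) a0) := by
    unfold Amf
    rw [cpl_eq X Y w t kk hkk0 a0 hX1]
  have hc : |t * (Y (w kk) a0 - Y (w 0) a0)| ≤ η / 4 := by
    have e1 : Y (w kk) a0 - Y (w 0) a0 = Y (w kk - w 0) a0 := by rw [map_sub]; rfl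
    have e2 : ‖w kk - w 0‖ ≤ 2 * ρ := by
      have e3 : w kk - w 0 = (w kk - z) - (w 0 - z) := by abel
      rw [e3]
      exact (norm_sub_le _ _).trans (by linarith [hw kk, hw 0])
    rw [e1, abs_mul, abs_of_nonneg ht0]
    calc t * |Y (w kk - w 0) a0| ≤ r0 * (CY * (2 * ρ)) := by
          refine mul_le_mul htr ((hY _ _).trans ?_) (abs_nonneg _) hr0p.le
          exact mul_le_mul_of_nonneg_left e2 hCY.le
      _ = η / 4 := by
          rw [hr0]
          field_simp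
          ring
  have hc1 := abs_le.1 hc
  have hge : ∀ i, f z ≤ f (w i) := fun i => (h.ge _ (hw i) (hco i)).1
  have hsum : (m : ℝ) * f z ≤ ∑ i, f (w i) := by
    have h1 : ∑ _i : Fin m, f z ≤ ∑ i, f (w i) := Finset.sum_le_sum fun i _ => hge i
    rwa [Finset.sum_const, Finset.card_univ, Fintype.card_fin, nsmul_eq_mul] at h1
  have hsum2 : ∀ (P : Finset (Fin m)) (s : ℝ), (∀ i ∈ P, f z + s ≤ f (w i)) →
      (m : ℝ) * f z + P.card * s ≤ ∑ i, f (w i) := by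
    intro P s hP
    have h1 : ∑ i : Fin m, (f z + if i ∈ P then s else 0) ≤ ∑ i, f (w i) := by
      refine Finset.sum_le_sum fun i _ => ?_
      by_cases hi : i ∈ P
      · rw [if_pos hi]; exact hP i hi
      · rw [if_neg hi, add_zero]; exact hge i
    rw [Finset.sum_add_distrib, Finset.sum_const, Finset.card_univ, Fintype.card_fin,
      nsmul_eq_mul, Finset.sum_ite_mem, Finset.univ_inter, Finset.sum_const, nsmul_eq_mul] at h1
    exact h1
  refine ⟨?_, ?_, ?_, ?_⟩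
  · rw [hA]; linarith [hc1.1]
  · rintro ⟨i, hi⟩
    have h1 := hsum2 {i} η (fun j hj => by
      rw [Finset.mem_singleton] at hj
      subst hj
      exact hg _ (hw _) hi (hco _))
    rw [Finset.card_singleton, Nat.cast_one, one_mul] at h1
    rw [hA]; linarith [hc1.1]
  · intro htr0
    have hpos := pos_eq X w t kk hkk0 a0 hX1
    have hfar : ∀ i, r0 / 2 ≤ |X (w i) a0 - X z a0| → f z + η2 ≤ f (w i) := by
      intro i hi
      refine hg2 _ (hw i) ?_ (hco i)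
      have e1 : X (w i) a0 - X z a0 = X (w i - z) a0 := by rw [map_sub]; rfl
      rw [e1] at hi
      have e2 := hX (w i - z) a0
      rw [div_le_iff₀ (by positivity)]
      linarith
    have hP : ∃ P : Finset (Fin m), P.card = k ∧ ∀ i ∈ P, f z + η2 ≤ f (w i) := by
      by_cases hx : r0 / 2 ≤ |X (w 0) a0 - X z a0|
      · refine ⟨Finset.Iio kk, by rw [Fin.card_Iio, hkk], fun i hi => hfar i ?_⟩
        rw [Finset.mem_Iio] at hi
        rw [hpos i, if_neg (not_le.2 hi), add_zero]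
        exact hx
      · refine ⟨Finset.Ici kk, by rw [Fin.card_Ici, hkk]; omega, fun i hi => hfar i ?_⟩
        rw [Finset.mem_Ici] at hi
        rw [hpos i, if_pos hi, htr0]
        push Not at hx
        rw [abs_lt] at hx
        refine le_trans ?_ (le_abs_self _)
        linarith [hx.1]
    obtain ⟨P, hPc, hP⟩ := hP
    have h1 := hsum2 P η2 hP
    rw [hPc] at h1
    rw [hA]; linarith [hc1.1]
  · intro ht
    rw [hA, ht, zero_mul, add_zero]
    exact hsum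

/-- Points on the mixed walls, with `X` constant and `Amf` strictly below `m f z`, do not exist. -/
theorem mixed_m {f : E → ℝ} {z : E} {d : ℕ}
    {co : E →ₗ[ℝ] (Fin d → ℝ)} {hh : E → Fin d → ℝ} {ρ₀ : ℝ} (h : L1 f z co hh ρ₀)
    {n : ℕ} (X Y : E →ₗ[ℝ] (Fin n → ℝ)) (a0 : Fin n) (m : ℕ) [NeZero m] (kk : Fin m)
    (hkk : kk ≠ 0) {c : ℝ} (hc : 0 < c) :
    ∃ ρ > 0, ∀ w : Fin m → E, (∀ i, ‖w i - z‖ ≤ ρ) →
      (∀ i j, co (w i - z) j * (co (w i - z) j - hh (w i) j) ≤ 0) →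
      (∀ i, i ≠ 0 → ∀ a, X (w i) a - X (w (i - 1)) a = 0) →
      Amf f X Y w ≤ m * f z - c * ‖w - fun _ => z‖ ^ 2 → w = fun _ => z := by
  have hm : 0 < m := Nat.pos_of_ne_zero (NeZero.ne m)
  have hm' : (0 : ℝ) < m := Nat.cast_pos.2 hm
  obtain ⟨ρ, hρ, hmix⟩ := h.mixed (c / (2 * m)) (by positivity)
  refine ⟨ρ, hρ, fun w hw h1 h2 h3 => ?_⟩
  have hA : Amf f X Y w = ∑ i, f (w i) := by
    unfold Amf
    rw [cpl_eq X Y w 0 kk hkk a0 (fun i hi a => by rw [h2 i hi a]; simp), zero_mul, add_zero]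
  have h4 : (m : ℝ) * f z - c / 2 * ‖w - fun _ => z‖ ^ 2 ≤ ∑ i, f (w i) := by
    have h5 : ∑ _i : Fin m, (f z - c / (2 * m) * ‖w - fun _ => z‖ ^ 2) ≤ ∑ i, f (w i) := by
      refine Finset.sum_le_sum fun i _ => le_trans ?_ (hmix (w i) (hw i) (h1 i))
      have h6 : ‖w i - z‖ ≤ ‖w - fun _ => z‖ := norm_le_pi_norm (w - fun _ => z) i
      have h7 : ‖w i - z‖ ^ 2 ≤ ‖w - fun _ => z‖ ^ 2 := pow_le_pow_left₀ (norm_nonneg _) h6 2
      have h8 : 0 < c / (2 * m) := by positivity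
      nlinarith
    rw [Finset.sum_const, Finset.card_univ, Fintype.card_fin, nsmul_eq_mul] at h5
    refine le_trans (le_of_eq ?_) h5
    field_simp
  rw [hA] at h3
  have h5 : ‖w - fun _ => z‖ ^ 2 ≤ 0 := by nlinarith
  have h6 : ‖w - fun _ => z‖ = 0 := by
    have := sq_nonneg ‖w - fun _ => z‖
    exact pow_eq_zero_iff (two_ne_zero) |>.1 (le_antisymm h5 this)
  exact sub_eq_zero.1 (norm_eq_zero.1 h6)

end Pool.Agent.H10.TU
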