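import Pool.Agent.H10.TU.Lvm
import Pool.Agent.H47.ST.ActZ
import Pool.Agent.H77.TU.Ident

/-!
# Identification of the sequences of length `m N` with `m` chunks

The chunk `i` has the variables `x_{iN+1}, …, x_{(i+1)N}` (the last one at the place `0`) and
`y_{iN}, …, y_{iN+N-1}`.
-/

set_option autoImplicit false

namespace Pool.Agent.H10.TU

open Pool.Agent.H47.QG (Pt action flw oseq Gen)
open Pool.Agent.H47.ST

/-- the variable `x_0` -/
def X0 (n N : ℕ) [NeZero N] : (Iz n N → ℝ) →ₗ[ℝ] (Fin n → ℝ) where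
  toFun v a := v (0, Sum.inl a)
  map_add' _ _ := rfl
  map_smul' _ _ := rfl

/-- the variable `y_0` -/
def Y0 (n N : ℕ) [NeZero N] : (Iz n N → ℝ) →ₗ[ℝ] (Fin n → ℝ) where
  toFun v a := v (0, Sum.inr a)
  map_add' _ _ := rfl
  map_smul' _ _ := rfl

/-- The decomposition into chunks. -/
theorem chunks (n m N : ℕ) [NeZero m] [NeZero N] [NeZero (m * N)] :
    ∃ ck : (Iz n (m * N) → ℝ) ≃ₗ[ℝ] (Fin m → Iz n N → ℝ),
      (∀ v, ‖ck v‖ = ‖v‖) ∧
      (∀ S : ℕ → Pt n → ℝ, (∀ j, S (j + N) = S j) → ∀ y : Iz n (m * N) → ℝ,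
        fS S (m * N) y = Amf (fS S N) (X0 n N) (Y0 n N) (ck y)) ∧
      (∀ f : ℕ → Pt n → Pt n, (∀ j, f (j + N) = f j) → ∀ w : Pt n, flw f N w = w →
        ck (zw f (m * N) w) = fun _ => zw f N w) :=
  ⟨Pool.Agent.H77.TU.ckE n m N, Pool.Agent.H77.TU.ckE_norm,
    fun _ hper y => Pool.Agent.H77.TU.fS_ck hper y,
    fun _ hfper w hw => funext fun i => Pool.Agent.H77.TU.ck_zw hfper w hw i⟩

end Pool.Agent.H10.TU
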