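import Pool.Agent.H10.TU.Tay
import Pool.Agent.H47.QG.Idx
import Pool.Agent.H77.TU.Neg

/-!
# A subspace on which the Hessian is negative definite, by linear equations
-/

set_option autoImplicit false

namespace Pool.Agent.H10.TU

open Module QuadraticForm
open Pool.Agent.H47.QG (hess)

variable {ι : Type*} [Fintype ι] [DecidableEq ι]

/-- `card ι - b` linear equations such that `g` has a strict maximum at `z` along their zero set,
quadratically. -/
theorem neg_sub {g : (ι → ℝ) → ℝ} (hg : ContDiff ℝ 2 g) {z : ι → ℝ} (hz : fderiv ℝ g z = 0)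
    {b : ℕ} (hb : b ≤ sigNeg (hess g z)) :
    ∃ Kl : List ((ι → ℝ) →ₗ[ℝ] ℝ), Kl.length + b = Fintype.card ι ∧
      ∃ c > 0, ∃ r > 0, ∀ v, ‖v‖ ≤ r → (∀ φ ∈ Kl, φ v = 0) →
        g (z + v) ≤ g z - c * ‖v‖ ^ 2 := by
  have hcard : b ≤ Fintype.card ι := by
    obtain ⟨W, hW, -⟩ := Pool.Agent.H77.TU.exists_neg_sub (hess g z) hb
    rw [← hW, ← Module.finrank_pi (R := ℝ) (ι := ι)]
    exact Submodule.finrank_le W
  obtain ⟨k, hk⟩ := Pool.Agent.H77.TU.neg_rows (hess g z) hb
    (r := Fintype.card ι - b) (by omega)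
  obtain ⟨c, hc, ρ, hρ, h1⟩ := Pool.Agent.H77.TU.det_bound hg hz hk
  refine ⟨List.ofFn fun j : Fin (Fintype.card ι - b) =>
    ({ toFun := fun v => ∑ i, k j i * v i
       map_add' := fun u v => by
         simp only [Pi.add_apply, mul_add, Finset.sum_add_distrib]
       map_smul' := fun a v => by
         simp only [Pi.smul_apply, smul_eq_mul, RingHom.id_apply, Finset.mul_sum]
         exact Finset.sum_congr rfl fun i _ => by ring } : (ι → ℝ) →ₗ[ℝ] ℝ), ?_, c, hc, ρ, hρ,
    fun v hv hK => ?_⟩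
  · rw [List.length_ofFn]; omega
  · have h2 := h1 (z + v) (by rwa [add_sub_cancel_left]) (fun j => by
      have h3 := hK _ (List.mem_ofFn.2 ⟨j, rfl⟩)
      have h4 : ∑ i, k j i * v i = 0 := h3
      simpa using h4)
    rwa [add_sub_cancel_left] at h2

end Pool.Agent.H10.TU
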