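import Pool.Agent.H10.TU.LvmA
import Pool.Agent.H10.TU.LvmI
import Pool.Agent.H10.TU.LvmS
import Pool.Agent.H10.TU.Idx
import Pool.Agent.H88.TU.Case2

/-!
# Project TU, case 2: a degenerate minimum makes a higher level wrong
-/

set_option autoImplicit false

open Module QuadraticForm Filter Topology

namespace Pool.Agent.H10.TU

open Pool.Agent.H47.QG (Pt action flw oseq Gen ind hess Zn MeanIdx)
open Pool.Agent.H47.ST

variable {n : ℕ}

theorem Zn_small {e : Pt n} (he : e ∈ Zn n) (h : ‖e‖ < 1) : e = 0 := by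
  obtain ⟨a, b, rfl⟩ := he
  have hz : ∀ c : ℤ, |(c : ℝ)| < 1 → c = 0 := by
    intro c hc
    by_contra h1
    have h2 : (1 : ℤ) ≤ |c| := Int.one_le_abs h1
    have h3 : ((1 : ℤ) : ℝ) ≤ ((|c| : ℤ) : ℝ) := Int.cast_le.2 h2
    rw [Int.cast_abs, Int.cast_one] at h3
    linarith
  have h1 := (max_lt_iff.1 (by rwa [Prod.norm_def] at h))
  refine Prod.ext (funext fun i => ?_) (funext fun i => ?_)
  · have h2 := (norm_le_pi_norm _ i).trans_lt h1.1
    rw [Real.norm_eq_abs] at h2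
    have h3 := hz _ h2
    change ((a i : ℤ) : ℝ) = 0
    rw [h3, Int.cast_zero]
  · have h2 := (norm_le_pi_norm _ i).trans_lt h1.2
    rw [Real.norm_eq_abs] at h2
    have h3 := hz _ h2
    change ((b i : ℤ) : ℝ) = 0
    rw [h3, Int.cast_zero]

theorem Zn_isol (w w' : Pt n) : ∃ r > 0, ∀ e ∈ Zn n, ‖w' + e - w‖ < r → w' + e = w := by
  by_cases h : ∃ e ∈ Zn n, ‖w' + e - w‖ < 1 / 2 ∧ w' + e ≠ w
  · obtain ⟨e0, he0, h1, h2⟩ := h
    refine ⟨min (1 / 2) ‖w' + e0 - w‖, lt_min (by norm_num)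
      (norm_pos_iff.2 (sub_ne_zero.2 h2)), fun e he h3 => ?_⟩
    rw [lt_min_iff] at h3
    have h4 : e - e0 = 0 := by
      refine Zn_small ((Zn n).sub_mem he he0) ?_
      have h5 : e - e0 = (w' + e - w) - (w' + e0 - w) := by abel
      rw [h5]
      exact (norm_sub_le _ _).trans_lt (by linarith [h3.1])
    rw [sub_eq_zero.1 h4] at h3
    exact absurd h3.2 (lt_irrefl _)
  · push Not at h
    exact ⟨1 / 2, by norm_num, fun e he h3 => h e he h3⟩

/-- the critical points of the action are isolated -/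
theorem iso_of_fin {S : ℕ → Pt n → ℝ} {f : ℕ → Pt n → Pt n} (hS : ∀ j, Gen (S j) (f j)) {N : ℕ}
    [NeZero N] (W : Finset (Pt n)) (hW : ∀ w, flw f N w = w ↔ ∃ w' ∈ W, w - w' ∈ Zn n)
    (w : Pt n) :
    ∃ r > 0, ∀ y, ‖y - zw f N w‖ ≤ r → fderiv ℝ (fS S N) y = 0 → y = zw f N w := by
  choose rr hrr hr using Zn_isol w
  have h1 : ∀ᶠ r in 𝓝[>] (0 : ℝ), ∀ w' ∈ W, r < rr w' := by
    rw [Finset.eventually_all]
    intro w' _
    exact (eventually_lt_nhds (hrr w')).filter_mono nhdsWithin_le_nhds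
  obtain ⟨r, h2, h3⟩ := (h1.and self_mem_nhdsWithin).exists
  refine ⟨r, h3, fun y hy hc => ?_⟩
  obtain ⟨h4, h5⟩ := (fS_crit hS N y).1 hc
  obtain ⟨w', hw', h6⟩ := (hW _).1 h4
  have h7 : ‖eK n N y 0 - w‖ ≤ r := by
    have h8 : eK n N y 0 - w = eK n N (y - zw f N w) 0 := by
      rw [map_sub, Pi.sub_apply, ActZ_zw, ActZ_oseq_zero]
    rw [h8, Prod.norm_def, max_le_iff]
    have h0 : 0 ≤ r := le_of_lt h3
    refine ⟨(pi_norm_le_iff_of_nonneg h0).2 fun i => ?_, (pi_norm_le_iff_of_nonneg h0).2 fun i => ?_⟩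
    · exact (norm_le_pi_norm (y - zw f N w) (0, Sum.inl i)).trans hy
    · exact (norm_le_pi_norm (y - zw f N w) (0, Sum.inr i)).trans hy
  have h8 := hr w' (eK n N y 0 - w') h6 (by
    rw [add_sub_cancel]
    exact h7.trans_lt (h2 w' hw'))
  rw [add_sub_cancel] at h8
  rw [h8] at h5
  exact (GrowA_zw_of f N y w h5)

theorem qK_continuous (n K : ℕ) [NeZero K] : Continuous (qK n K) := by
  have := (dom_Dm n K one_pos 0 0).q1.continuous
  simpa using this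

theorem QK_continuous (n K : ℕ) [NeZero K] : Continuous (QK n K) := by
  have := (dom_Dm n K one_pos 0 0).Q1.continuous
  simpa using this

theorem qK_per (n K : ℕ) [NeZero K] : PerL (Lc n K) (qK n K) := by
  have := (dom_Dm n K one_pos 0 0).qp
  simpa using this

theorem QK_per (n K : ℕ) [NeZero K] : PerL (Lc n K) (QK n K) := by
  have := (dom_Dm n K one_pos 0 0).Qp
  simpa using this

/-- **Case 2.** -/
theorem lvm_low {S : ℕ → Pt n → ℝ} {f : ℕ → Pt n → Pt n} (hS : ∀ j, Gen (S j) (f j))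
    (hn : 0 < n) {N : ℕ} [NeZero N] (hper : ∀ j, S (j + N) = S j)
    (hfper : ∀ j, f (j + N) = f j) (W : Finset (Pt n))
    (hW : ∀ w, flw f N w = w ↔ ∃ w' ∈ W, w - w' ∈ Zn n) {w : Pt n} (hw : flw f N w = w)
    (hM : MeanIdx S f N w 0) {e : Fin (n * (N - 1)) → (Iz n N → ℝ)}
    (he : NegFam (fS S N) (zw f N w) e) (hSD : SDe (fS S N) (zw f N w) e) :
    ∃ (m : ℕ) (_ : NeZero (m * N)), 2 ≤ m * N ∧
      Pool.Agent.H88.TU.Low S (m * N) (n * (m * N) - n - 1) := by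
  have hN : 0 < N := Nat.pos_of_ne_zero (NeZero.ne N)
  have hf := fS_smooth (n := n) hS N
  have hz : fderiv ℝ (fS S N) (zw f N w) = 0 := by
    rw [fS_crit hS, ActZ_zw, ActZ_oseq_zero]
    exact ⟨hw, rfl⟩
  obtain ⟨hh, ρ₀, hL1⟩ := level_one' hf hz (iso_of_fin hS W hW w) he hSD
  obtain ⟨k0, hk0, hlow⟩ := low_abs hL1 hf.continuous (X0 n N) (Y0 n N) ⟨0, hn⟩
  have hm0 : 0 < 2 * k0 := by omega
  have i1 : NeZero (2 * k0) := ⟨hm0.ne'⟩
  have i2 : NeZero (2 * k0 * N) := ⟨(Nat.mul_pos hm0 hN).ne'⟩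
  obtain ⟨ck, hck, hact, hzw⟩ := chunks n (2 * k0) N
  have hcount : 2 * k0 * (n * (N - 1)) + (2 * k0 - 1) * n = n * (2 * k0 * N) - n := by
    obtain ⟨N', rfl⟩ : ∃ N', N = N' + 1 := ⟨N - 1, by omega⟩
    obtain ⟨k', hk'⟩ : ∃ k', 2 * k0 = k' + 1 := ⟨2 * k0 - 1, by omega⟩
    rw [hk']
    simp only [Nat.add_sub_cancel]
    have h1 : n * ((k' + 1) * (N' + 1)) = ((k' + 1) * (n * N') + k' * n) + n := by ring
    rw [h1, Nat.add_sub_cancel]
  refine ⟨2 * k0, i2, ?_, ?_⟩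
  · calc 2 = 2 * 1 * 1 := by norm_num
      _ ≤ 2 * k0 * N := Nat.mul_le_mul (Nat.mul_le_mul le_rfl hk0) hN
  have hperm := Pool.Agent.H88.TU.per_mul hper (2 * k0)
  have hfperm := Pool.Agent.H88.TU.per_mul hfper (2 * k0)
  have hzm : fderiv ℝ (fS S (2 * k0 * N)) (zw f (2 * k0 * N) w) = 0 := by
    rw [fS_crit hS, ActZ_zw, ActZ_oseq_zero]
    refine ⟨?_, rfl⟩
    have h1 := Pool.Agent.H47.QG.flw_mul hfper (2 * k0) w
    rw [h1]
    exact Function.iterate_fixed hw _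
  have hge : n * (2 * k0 * N) ≤ ind S f (2 * k0 * N) w + n := by
    refine ind_ge S f hS N hN hper hfper w hw ?_ (2 * k0) hm0
    have h1 := (tendsto_add_atTop_iff_nat 1).2 hM
    simpa using h1
  obtain ⟨Kl, hKl, c, hc, r, hr, hneg⟩ := neg_sub (fS_smooth hS (2 * k0 * N)) hzm
    (b := n * (2 * k0 * N) - n) (by rw [fS_sigNeg hS]; omega)
  have h1 := hlow k0 (2 * k0) le_rfl rfl ck hck (fS S (2 * k0 * N)) (hact S hper)
    (zw f (2 * k0 * N) w) (hzw f hfper w hw) Kl (by rw [hcount]; exact hKl) c hc r hr hneg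
    (Lc n (2 * k0 * N)) (qK n (2 * k0 * N)) (QK n (2 * k0 * N)) (qK_continuous _ _)
    (QK_continuous _ _) (qK_per _ _) (QK_per _ _)
  rw [hcount] at h1
  exact h1

end Pool.Agent.H10.TU
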