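import Mathlib

/-!
# Taylor estimates at a critical point of a `C^2` function
-/

set_option autoImplicit false

open Filter Topology Metric

namespace Pool.Agent.H10.TU

variable {E : Type*} [NormedAddCommGroup E] [NormedSpace ℝ E]

/-- the second derivative -/
noncomputable abbrev D2 (f : E → ℝ) (z : E) : E →L[ℝ] E →L[ℝ] ℝ := fderiv ℝ (fderiv ℝ f) z

theorem D2_sym {f : E → ℝ} (hf : ContDiff ℝ 2 f) (z v w : E) : D2 f z v w = D2 f z w v :=
  (hf.contDiffAt (x := z)).isSymmSndFDerivAt (by simp) v w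

theorem D1_c1 {f : E → ℝ} (hf : ContDiff ℝ 2 f) : ContDiff ℝ 1 (fderiv ℝ f) :=
  hf.fderiv_right (by norm_num)

/-- derivative of the quadratic form `v ↦ B v v / 2` -/
theorem hasFDerivAt_quad {B : E →L[ℝ] E →L[ℝ] ℝ} (hB : ∀ v w, B v w = B w v) (w : E) :
    HasFDerivAt (fun w => B w w / 2) (B w) w := by
  have h1 : HasFDerivAt (fun w : E => B w) B w := B.hasFDerivAt
  have h2 := h1.clm_apply (hasFDerivAt_id w)
  have h3 := h2.const_mul (1 / 2 : ℝ)
  refine (h3.congr_fderiv ?_).congr_of_eventuallyEq ?_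
  · ext v
    simp only [ContinuousLinearMap.smul_apply, ContinuousLinearMap.add_apply,
      ContinuousLinearMap.comp_apply, ContinuousLinearMap.flip_apply, id_eq, smul_eq_mul,
      ContinuousLinearMap.id_apply]
    rw [hB v w]
    ring
  · filter_upwards with y
    simp only [id_eq]
    ring

/-- the Taylor remainder of order two is Lipschitz with a small constant -/
theorem taylor_lip {f : E → ℝ} (hf : ContDiff ℝ 2 f) {z : E} (hz : fderiv ℝ f z = 0) {ε : ℝ}
    (hε : 0 < ε) : ∃ r > 0, ∀ w w' : E, ‖w‖ ≤ r → ‖w'‖ ≤ r →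
      |(f (z + w) - D2 f z w w / 2) - (f (z + w') - D2 f z w' w' / 2)| ≤
        ε * max ‖w‖ ‖w'‖ * ‖w - w'‖ := by
  have h1 : HasFDerivAt (fderiv ℝ f) (D2 f z) z :=
    ((D1_c1 hf).differentiable (by norm_num) z).hasFDerivAt
  have h2 := (hasFDerivAt_iff_isLittleO_nhds_zero.1 h1).def hε
  obtain ⟨r, hr, h3⟩ := Metric.eventually_nhds_iff_ball.1 h2
  refine ⟨r / 2, half_pos hr, ?_⟩
  intro w w' hw hw'
  set R := max ‖w‖ ‖w'‖ with hR
  have hRr : R < r := by
    rw [hR, max_lt_iff]
    constructor <;> linarith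
  have h4 : ∀ x ∈ closedBall (0 : E) R, HasFDerivWithinAt
      (fun w => f (z + w) - D2 f z w w / 2) (fderiv ℝ f (z + x) - D2 f z x)
      (closedBall (0 : E) R) x := by
    intro x _
    have e1 : HasFDerivAt f (fderiv ℝ f (z + x)) (z + x) :=
      (hf.differentiable (by norm_num) _).hasFDerivAt
    have e2 : HasFDerivAt (fun w => f (z + w)) (fderiv ℝ f (z + x)) x := by
      have := e1.comp x ((hasFDerivAt_id x).const_add z)
      simpa [Function.comp_def] using this
    exact (e2.sub (hasFDerivAt_quad (D2_sym hf z) x)).hasFDerivWithinAt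
  have h5 : ∀ x ∈ closedBall (0 : E) R, ‖fderiv ℝ f (z + x) - D2 f z x‖ ≤ ε * R := by
    intro x hx
    rw [mem_closedBall_zero_iff] at hx
    have h6 := h3 x (by rw [mem_ball_zero_iff]; linarith)
    rw [hz, sub_zero] at h6
    exact h6.trans (mul_le_mul_of_nonneg_left hx hε.le)
  have h7 := (convex_closedBall (0 : E) R).norm_image_sub_le_of_norm_hasFDerivWithin_le h4 h5
    (mem_closedBall_zero_iff.2 (le_max_right ‖w‖ ‖w'‖))
    (mem_closedBall_zero_iff.2 (le_max_left ‖w‖ ‖w'‖))
  rwa [Real.norm_eq_abs] at h7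

/-- second differences near `z` -/
theorem second_diff {f : E → ℝ} (hf : ContDiff ℝ 2 f) (z : E) {ε : ℝ} (hε : 0 < ε) :
    ∃ r > 0, ∀ y k : E, ‖y - z‖ ≤ r → ‖k‖ ≤ r →
      |f (y + k) + f (y - k) - 2 * f y - D2 f z k k| ≤ ε * ‖k‖ ^ 2 := by
  have h1 : HasStrictFDerivAt (fderiv ℝ f) (D2 f z) z :=
    (D1_c1 hf).hasStrictFDerivAt (by norm_num)
  have h2 := h1.isLittleO.def (half_pos hε)
  rw [nhds_prod_eq] at h2
  obtain ⟨r, hr, h3⟩ := (Metric.nhds_basis_ball.prod_self).eventually_iff.1 h2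
  refine ⟨r / 3, by positivity, ?_⟩
  intro y k hy hk
  have h4 : ∀ x ∈ closedBall (0 : E) ‖k‖, HasFDerivWithinAt
      (fun w => f (y + w) + f (y - w) - D2 f z w w)
      (fderiv ℝ f (y + x) - fderiv ℝ f (y - x) - (2 : ℝ) • D2 f z x)
      (closedBall (0 : E) ‖k‖) x := by
    intro x _
    have e1 : ∀ y, HasFDerivAt f (fderiv ℝ f y) y := fun y =>
      (hf.differentiable (by norm_num) _).hasFDerivAt
    have e2 : HasFDerivAt (fun w => f (y + w)) (fderiv ℝ f (y + x)) x := by
      have := (e1 (y + x)).comp x ((hasFDerivAt_id x).const_add y)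
      simpa [Function.comp_def] using this
    have e3 : HasFDerivAt (fun w => f (y - w)) (-fderiv ℝ f (y - x)) x := by
      have := (e1 (y - x)).comp x ((hasFDerivAt_id x).const_sub y)
      simpa [Function.comp_def] using this
    have e4 := (hasFDerivAt_quad (D2_sym hf z) x).const_mul (2 : ℝ)
    refine ((((e2.add e3).sub e4).congr_fderiv ?_).congr_of_eventuallyEq ?_).hasFDerivWithinAt
    · abel
    · filter_upwards with w
      simp only [Pi.add_apply, Pi.sub_apply]
      ring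
  have h5 : ∀ x ∈ closedBall (0 : E) ‖k‖,
      ‖fderiv ℝ f (y + x) - fderiv ℝ f (y - x) - (2 : ℝ) • D2 f z x‖ ≤ ε * ‖k‖ := by
    intro x hx
    rw [mem_closedBall_zero_iff] at hx
    have h6 := @h3 (y + x, y - x) ⟨by
        rw [mem_ball, dist_eq_norm]
        calc ‖y + x - z‖ = ‖(y - z) + x‖ := by congr 1; abel
          _ ≤ ‖y - z‖ + ‖x‖ := norm_add_le _ _
          _ < r := by linarith, by
        rw [mem_ball, dist_eq_norm]
        calc ‖y - x - z‖ = ‖(y - z) - x‖ := by congr 1; abel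
          _ ≤ ‖y - z‖ + ‖x‖ := norm_sub_le _ _
          _ < r := by linarith⟩
    have e5 : (y + x) - (y - x) = (2 : ℝ) • x := by rw [two_smul]; abel
    simp only [e5, map_smul] at h6
    refine h6.trans ?_
    rw [norm_smul, Real.norm_eq_abs, abs_two]
    nlinarith [norm_nonneg x]
  have h7 := (convex_closedBall (0 : E) ‖k‖).norm_image_sub_le_of_norm_hasFDerivWithin_le h4 h5
    (mem_closedBall_self (norm_nonneg k)) (mem_closedBall_zero_iff.2 le_rfl)
  rw [Real.norm_eq_abs] at h7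
  simp only [add_zero, sub_zero, map_zero] at h7
  have e6 : f (y + k) + f (y - k) - 2 * f y - D2 f z k k =
      f (y + k) + f (y - k) - D2 f z k k - (f y + f y) := by ring
  rw [e6]
  refine h7.trans (le_of_eq ?_)
  ring

end Pool.Agent.H10.TU
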